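import Pool.Agent.H29.TF.Defs

/-!
# Heat kernel on a finite-dimensional inner product space
-/

open MeasureTheory Real Set

namespace Pool.Agent.H29.TF

section heat
variable {V : Type*} [NormedAddCommGroup V] [InnerProductSpace ℝ V]

theorem hk_pos {t : ℝ} (ht : 0 < t) (x : V) : 0 < hk t x := by
  unfold hk
  positivity

theorem hk_nonneg {t : ℝ} (ht : 0 ≤ t) (x : V) : 0 ≤ hk t x := by
  unfold hk
  positivity

theorem hk_neg (t : ℝ) (x : V) : hk t (-x) = hk t x := by
  unfold hk; rw [norm_neg]

theorem hk_sub_comm (t : ℝ) (x y : V) : hk t (x - y) = hk t (y - x) := by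
  rw [← hk_neg, neg_sub]

@[fun_prop]
theorem continuous_hk (t : ℝ) : Continuous (fun x : V => hk t x) := by
  unfold hk; fun_prop

theorem hk_le {t : ℝ} (ht : 0 < t) (x : V) : hk t x ≤ hk t (0 : V) := by
  unfold hk
  apply mul_le_mul_of_nonneg_left _ (by positivity)
  apply Real.exp_le_exp.2
  rw [norm_zero]
  have : 0 ≤ ‖x‖ ^ 2 / (4 * t) := by positivity
  have e : -‖x‖ ^ 2 / (4 * t) = -(‖x‖ ^ 2 / (4 * t)) := by ring
  rw [e]
  simp only [ne_eq, OfNat.ofNat_ne_zero, not_false_eq_true, zero_pow, neg_zero, zero_div]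
  linarith

variable [MeasurableSpace V] [BorelSpace V] [FiniteDimensional ℝ V]

omit [FiniteDimensional ℝ V] in
theorem measurable_hk_uncurry : Measurable (fun p : ℝ × V => hk p.1 p.2) := by
  unfold hk
  apply Measurable.mul
  · exact Measurable.pow_const (by fun_prop) _
  · fun_prop

theorem integrable_hk {t : ℝ} (ht : 0 < t) : Integrable (fun x : V => hk t x) := by
  unfold hk
  apply Integrable.const_mul
  have hb : 0 < ((1 / (4 * t) : ℝ) : ℂ).re := by rw [Complex.ofReal_re]; positivity
  have := GaussianFourier.integrable_cexp_neg_mul_sq_norm_add (V := V) hb 0 (0 : V)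
  have h2 := this.norm
  refine h2.congr (Filter.Eventually.of_forall fun x => ?_)
  show ‖Complex.exp (-(((1 / (4 * t) : ℝ)) : ℂ) * (‖x‖ : ℂ) ^ 2 + 0 * ((inner ℝ 0 x : ℝ) : ℂ))‖ =
    Real.exp (-‖x‖ ^ 2 / (4 * t))
  rw [Complex.norm_exp, inner_zero_left]
  apply congrArg
  rw [show (-(((1 / (4 * t) : ℝ)) : ℂ) * (‖x‖ : ℂ) ^ 2 + 0 * ((0 : ℝ) : ℂ) : ℂ) =
    ((-(1 / (4 * t)) * ‖x‖ ^ 2 : ℝ) : ℂ) by push_cast; ring]
  rw [Complex.ofReal_re]
  ring

theorem integral_hk {t : ℝ} (ht : 0 < t) : ∫ x : V, hk t x = 1 := by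
  unfold hk
  rw [integral_const_mul]
  have hb : 0 < 1 / (4 * t) := by positivity
  have := GaussianFourier.integral_rexp_neg_mul_sq_norm (V := V) hb
  have e : (fun x : V => Real.exp (-‖x‖ ^ 2 / (4 * t))) =
      fun x : V => Real.exp (-(1 / (4 * t)) * ‖x‖ ^ 2) := by
    ext x; congr 1; ring
  rw [e, this]
  have : (4 * π * t) ^ (-(Module.finrank ℝ V : ℝ) / 2) * (π / (1 / (4 * t))) ^ ((Module.finrank ℝ V : ℝ) / 2) = 1 := by
    have e2 : π / (1 / (4 * t)) = 4 * π * t := by field_simp
    rw [e2, neg_div, Real.rpow_neg (by positivity)]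
    exact inv_mul_cancel₀ (by positivity)
  exact this

theorem integral_hk_sub {t : ℝ} (ht : 0 < t) (x : V) : ∫ y : V, hk t (x - y) = 1 := by
  rw [integral_sub_left_eq_self (fun y : V => hk t y) volume x]
  exact integral_hk ht

theorem integrable_hk_sub {t : ℝ} (ht : 0 < t) (x : V) : Integrable (fun y : V => hk t (x - y)) :=
  (integrable_hk ht).comp_sub_left x

/-- completing the square -/
theorem semigroup_hk {s t : ℝ} (hs : 0 < s) (ht : 0 < t) (x y : V) :
    ∫ w : V, hk s (x - w) * hk t (w - y) = hk (s + t) (x - y) := by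
  have hst : 0 < s + t := by positivity
  set c : V := (t / (s + t)) • x + (s / (s + t)) • y with hc
  have key : ∀ w : V, hk s (x - w) * hk t (w - y) =
      hk (s + t) (x - y) * hk (s * t / (s + t)) (w - c) := by
    intro w
    have hsq : ‖x - w‖ ^ 2 / (4 * s) + ‖w - y‖ ^ 2 / (4 * t) =
        ‖x - y‖ ^ 2 / (4 * (s + t)) + ‖w - c‖ ^ 2 / (4 * (s * t / (s + t))) := by
      have e1 : x - w = (s / (s + t)) • (x - y) - (w - c) := by
        rw [hc]
        have : x = (s / (s + t)) • x + (t / (s + t)) • x := by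
          rw [← add_smul, ← add_div, div_self hst.ne', one_smul]
        nth_rewrite 1 [this]
        module
      have e2 : w - y = (t / (s + t)) • (x - y) + (w - c) := by
        rw [hc]
        have : y = (s / (s + t)) • y + (t / (s + t)) • y := by
          rw [← add_smul, ← add_div, div_self hst.ne', one_smul]
        nth_rewrite 1 [this]
        module
      rw [e1, e2, norm_sub_sq_real, norm_add_sq_real, norm_smul, norm_smul, inner_smul_left,
        inner_smul_left, mul_pow, mul_pow, Real.norm_of_nonneg (by positivity : 0 ≤ s / (s + t)),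
        Real.norm_of_nonneg (by positivity : 0 ≤ t / (s + t))]
      simp only [conj_trivial]
      field_simp
      ring
    unfold hk
    have hexp : Real.exp (-‖x - w‖ ^ 2 / (4 * s)) * Real.exp (-‖w - y‖ ^ 2 / (4 * t)) =
        Real.exp (-‖x - y‖ ^ 2 / (4 * (s + t))) *
          Real.exp (-‖w - c‖ ^ 2 / (4 * (s * t / (s + t)))) := by
      rw [← Real.exp_add, ← Real.exp_add]
      congr 1
      have : -‖x - w‖ ^ 2 / (4 * s) + -‖w - y‖ ^ 2 / (4 * t) =
        -(‖x - w‖ ^ 2 / (4 * s) + ‖w - y‖ ^ 2 / (4 * t)) := by ring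
      rw [this, hsq]
      ring
    have hpow : (4 * π * s) ^ (-(Module.finrank ℝ V : ℝ) / 2) *
        (4 * π * t) ^ (-(Module.finrank ℝ V : ℝ) / 2) =
        (4 * π * (s + t)) ^ (-(Module.finrank ℝ V : ℝ) / 2) *
          (4 * π * (s * t / (s + t))) ^ (-(Module.finrank ℝ V : ℝ) / 2) := by
      rw [← Real.mul_rpow (by positivity) (by positivity),
        ← Real.mul_rpow (by positivity) (by positivity)]
      congr 1
      field_simp
    calc _ = ((4 * π * s) ^ (-(Module.finrank ℝ V : ℝ) / 2) *
        (4 * π * t) ^ (-(Module.finrank ℝ V : ℝ) / 2)) *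
        (Real.exp (-‖x - w‖ ^ 2 / (4 * s)) * Real.exp (-‖w - y‖ ^ 2 / (4 * t))) := by ring
      _ = _ := by rw [hexp, hpow]; ring
  simp_rw [key]
  rw [integral_const_mul, integral_sub_right_eq_self (fun w : V => hk (s * t / (s + t)) w) c,
    integral_hk (by positivity), mul_one]

/-! ### The operator `P t` -/

theorem P_eq_conv (t : ℝ) (f : V → ℝ) (x : V) : P t f x = ∫ y, hk t y * f (x - y) := by
  unfold P
  rw [← integral_sub_left_eq_self (fun y : V => hk t y * f (x - y)) volume x]
  simp

theorem P_nonneg {t : ℝ} (ht : 0 ≤ t) {f : V → ℝ} (hf : ∀ x, 0 ≤ f x) (x : V) : 0 ≤ P t f x :=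
  integral_nonneg fun y => mul_nonneg (hk_nonneg ht _) (hf y)

theorem P_const {t : ℝ} (ht : 0 < t) (c : ℝ) (x : V) : P t (fun _ : V => c) x = c := by
  unfold P
  rw [integral_mul_const, integral_hk_sub ht, one_mul]

theorem integrable_hk_mul {t : ℝ} (ht : 0 < t) {f : V → ℝ} (hf : AEStronglyMeasurable f volume)
    {C : ℝ} (hC : ∀ x, |f x| ≤ C) (x : V) : Integrable (fun y => hk t (x - y) * f y) :=
  (integrable_hk_sub ht x).mul_bdd hf (Filter.Eventually.of_forall hC)

theorem integrable_hk_mul' {t : ℝ} (ht : 0 < t) {f : V → ℝ} (hf : Integrable f) (x : V) :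
    Integrable (fun y => hk t (x - y) * f y) := by
  refine hf.bdd_mul (c := hk t (0 : V)) (Continuous.aestronglyMeasurable (by fun_prop))
    (Filter.Eventually.of_forall fun y => ?_)
  rw [Real.norm_of_nonneg (hk_nonneg ht.le _)]
  exact hk_le ht _

theorem P_mono {t : ℝ} (ht : 0 < t) {f g : V → ℝ} (x : V)
    (hf : Integrable (fun y => hk t (x - y) * f y)) (hg : Integrable (fun y => hk t (x - y) * g y))
    (h : ∀ x, f x ≤ g x) : P t f x ≤ P t g x :=
  integral_mono hf hg fun y => mul_le_mul_of_nonneg_left (h y) (hk_nonneg ht.le _)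

theorem abs_P_le {t : ℝ} (ht : 0 < t) {f : V → ℝ} {C : ℝ} (hC : ∀ x, |f x| ≤ C) (x : V) :
    |P t f x| ≤ C := by
  have : |P t f x| ≤ ∫ y, hk t (x - y) * C := by
    unfold P
    rw [← Real.norm_eq_abs]
    apply norm_integral_le_of_norm_le ((integrable_hk_sub ht x).mul_const C)
    refine Filter.Eventually.of_forall fun y => ?_
    rw [norm_mul, Real.norm_of_nonneg (hk_nonneg ht.le _)]
    exact mul_le_mul_of_nonneg_left (hC y) (hk_nonneg ht.le _)
  rwa [integral_mul_const, integral_hk_sub ht, one_mul] at this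

theorem P_add {t : ℝ} {f g : V → ℝ} (x : V)
    (hf : Integrable (fun y => hk t (x - y) * f y)) (hg : Integrable (fun y => hk t (x - y) * g y)) :
    P t (fun y => f y + g y) x = P t f x + P t g x := by
  unfold P
  rw [← integral_add hf hg]
  congr 1; ext y; ring

theorem P_sub {t : ℝ} {f g : V → ℝ} (x : V)
    (hf : Integrable (fun y => hk t (x - y) * f y)) (hg : Integrable (fun y => hk t (x - y) * g y)) :
    P t (fun y => f y - g y) x = P t f x - P t g x := by
  unfold P
  rw [← integral_sub hf hg]
  congr 1; ext y; ring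

theorem P_const_mul (t c : ℝ) (f : V → ℝ) (x : V) :
    P t (fun y => c * f y) x = c * P t f x := by
  unfold P
  rw [← integral_const_mul]
  congr 1; ext y; ring

/-- joint measurability of `(x, y) ↦ hk t (x - y) * f y` -/
theorem aesm_hk_prod (t : ℝ) {f : V → ℝ} (hf : AEStronglyMeasurable f volume) :
    AEStronglyMeasurable (fun p : V × V => hk t (p.1 - p.2) * f p.2) (volume.prod volume) := by
  apply AEStronglyMeasurable.mul
  · exact Continuous.aestronglyMeasurable (by fun_prop)
  · exact hf.comp_snd

theorem integrable_hk_prod {t : ℝ} (ht : 0 < t) {f : V → ℝ} (hf : Integrable f) :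
    Integrable (fun p : V × V => hk t (p.1 - p.2) * f p.2) (volume.prod volume) := by
  rw [integrable_prod_iff' (aesm_hk_prod t hf.aestronglyMeasurable)]
  constructor
  · refine Filter.Eventually.of_forall fun y => ?_
    exact ((integrable_hk ht).comp_sub_right y).mul_const (f y)
  · have : (fun y : V => ∫ x : V, ‖hk t (x - y) * f y‖) = fun y => ‖f y‖ := by
      ext y
      simp_rw [norm_mul]
      rw [integral_mul_const]
      simp_rw [Real.norm_of_nonneg (hk_nonneg ht.le _)]
      rw [integral_sub_right_eq_self (fun x : V => hk t x) y, integral_hk ht, one_mul]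
    rw [this]
    exact hf.norm

theorem integrable_P {t : ℝ} (ht : 0 < t) {f : V → ℝ} (hf : Integrable f) :
    Integrable (P t f) :=
  (integrable_hk_prod ht hf).integral_prod_left

theorem integral_P {t : ℝ} (ht : 0 < t) {f : V → ℝ} (hf : Integrable f) :
    ∫ x, P t f x = ∫ x, f x := by
  unfold P
  rw [integral_integral_swap (integrable_hk_prod ht hf)]
  congr 1
  ext y
  rw [integral_mul_const, integral_sub_right_eq_self (fun x : V => hk t x) y, integral_hk ht,
    one_mul]

theorem aesm_P {t : ℝ} {f : V → ℝ} (hf : AEStronglyMeasurable f volume) :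
    AEStronglyMeasurable (P t f) volume :=
  (aesm_hk_prod t hf).integral_prod_right'

/-- self-adjointness, `f` integrable and `g` bounded -/
theorem P_selfadj {t : ℝ} (ht : 0 < t) {f g : V → ℝ} (hf : Integrable f)
    (hg : AEStronglyMeasurable g volume) {C : ℝ} (hC : ∀ x, |g x| ≤ C) :
    ∫ x, g x * P t f x = ∫ x, P t g x * f x := by
  unfold P
  have hint : Integrable (fun p : V × V => g p.1 * (hk t (p.1 - p.2) * f p.2))
      (volume.prod volume) := by
    exact (integrable_hk_prod ht hf).bdd_mul hg.comp_fst (Filter.Eventually.of_forall fun p => hC _)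
  calc ∫ x, g x * ∫ y, hk t (x - y) * f y = ∫ x, ∫ y, g x * (hk t (x - y) * f y) := by
        congr 1; ext x; rw [integral_const_mul]
    _ = ∫ y, ∫ x, g x * (hk t (x - y) * f y) := integral_integral_swap hint
    _ = ∫ y, (∫ x, hk t (y - x) * g x) * f y := by
        congr 1; ext y; rw [← integral_mul_const]
        congr 1; ext x; rw [hk_sub_comm t x y]; ring

/-- semigroup property for bounded functions -/
theorem P_P {s t : ℝ} (hs : 0 < s) (ht : 0 < t) {f : V → ℝ}
    (hf : AEStronglyMeasurable f volume) {C : ℝ} (hC : ∀ x, |f x| ≤ C) (x : V) :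
    P s (P t f) x = P (s + t) f x := by
  unfold P
  have hint : Integrable (fun p : V × V => hk s (x - p.1) * (hk t (p.1 - p.2) * f p.2))
      (volume.prod volume) := by
    have h1 : AEStronglyMeasurable (fun p : V × V => hk s (x - p.1) * (hk t (p.1 - p.2) * f p.2))
        (volume.prod volume) := by
      apply AEStronglyMeasurable.mul
      · exact Continuous.aestronglyMeasurable (by fun_prop)
      · exact aesm_hk_prod t hf
    rw [integrable_prod_iff h1]
    constructor
    · refine Filter.Eventually.of_forall fun w => ?_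
      exact (integrable_hk_mul ht hf hC w).const_mul (hk s (x - w))
    · have hle : ∀ w : V, ‖∫ y : V, ‖hk s (x - w) * (hk t (w - y) * f y)‖‖ ≤ C * hk s (x - w) := by
        intro w
        rw [Real.norm_of_nonneg (integral_nonneg fun y => norm_nonneg _)]
        have : ∫ y : V, ‖hk s (x - w) * (hk t (w - y) * f y)‖ ≤
            ∫ y : V, hk s (x - w) * (hk t (w - y) * C) := by
          apply integral_mono_of_nonneg (Filter.Eventually.of_forall fun y => norm_nonneg _)
            (((integrable_hk_sub ht w).mul_const C).const_mul _)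
          refine Filter.Eventually.of_forall fun y => ?_
          simp only [norm_mul]
          rw [Real.norm_of_nonneg (hk_nonneg hs.le _), Real.norm_of_nonneg (hk_nonneg ht.le _)]
          exact mul_le_mul_of_nonneg_left (mul_le_mul_of_nonneg_left (hC y) (hk_nonneg ht.le _))
            (hk_nonneg hs.le _)
        refine this.trans (le_of_eq ?_)
        rw [integral_const_mul, integral_mul_const, integral_hk_sub ht]
        ring
      refine Integrable.mono' ((integrable_hk_sub hs x).const_mul C) ?_
        (Filter.Eventually.of_forall hle)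
      exact h1.norm.integral_prod_right'
  calc ∫ w, hk s (x - w) * ∫ y, hk t (w - y) * f y
      = ∫ w, ∫ y, hk s (x - w) * (hk t (w - y) * f y) := by
        congr 1; ext w; rw [integral_const_mul]
    _ = ∫ y, ∫ w, hk s (x - w) * (hk t (w - y) * f y) := integral_integral_swap hint
    _ = ∫ y, hk (s + t) (x - y) * f y := by
        congr 1; ext y
        rw [← semigroup_hk hs ht, ← integral_mul_const]
        congr 1; ext w; ring

end heat

end Pool.Agent.H29.TF
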