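import Mathlib

/-!
# Thomas–Fermi pressure (MP_0f7e37_mp): shared definitions

`E3` is Euclidean 3-space.  `hk` is the heat kernel, `P t` the heat semigroup,
`vh h` the truncated Coulomb potential `4π ∫_h^∞ hk t dt ≤ 1/‖x‖`,
`kap h` the kernel `4π ∫_h^{2h} hk t dt`, and `Ch h` the discretised Coulomb kernel
`4π h ∑_{n≥1} hk (n h)`.
-/

open MeasureTheory Real Set

namespace Pool.Agent.H29.TF

abbrev E3 := EuclideanSpace ℝ (Fin 3)

section heat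
variable {V : Type*} [NormedAddCommGroup V] [InnerProductSpace ℝ V]

/-- heat kernel `(4πt)^{-d/2} exp(-‖x‖²/4t)` -/
noncomputable def hk (t : ℝ) (x : V) : ℝ :=
  (4 * π * t) ^ (-(Module.finrank ℝ V : ℝ) / 2) * Real.exp (-‖x‖ ^ 2 / (4 * t))

/-- heat semigroup -/
noncomputable def P [MeasurableSpace V] [BorelSpace V] [FiniteDimensional ℝ V]
    (t : ℝ) (f : V → ℝ) (x : V) : ℝ :=
  ∫ y, hk t (x - y) * f y

end heat

/-- truncated Coulomb potential `4π ∫_h^∞ hk t dt` -/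
noncomputable def vh (h : ℝ) (x : E3) : ℝ := 4 * π * ∫ t in Ioi h, hk t x

/-- source kernel `4π ∫_h^{2h} hk t dt` -/
noncomputable def kap (h : ℝ) (x : E3) : ℝ := 4 * π * ∫ t in Ioc h (2 * h), hk t x

/-- discretised Coulomb kernel -/
noncomputable def Ch (h : ℝ) (x : E3) : ℝ := 4 * π * h * ∑' n : ℕ, hk (((n : ℝ) + 1) * h) x

/-- admissible densities -/
def Adm (ρ : E3 → ℝ) : Prop :=
  (∀ x, 0 ≤ ρ x) ∧ Integrable ρ ∧ Integrable (fun x => ρ x ^ ((5 : ℝ) / 3))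

/-- admissible and square integrable densities -/
def Adm2 (ρ : E3 → ℝ) : Prop := Adm ρ ∧ Integrable (fun x => ρ x ^ 2)

variable {k : ℕ}

/-- TF functional (without nuclear repulsion) with chemical potential `μ`, nuclei `z i` at `l • R i` -/
noncomputable def F (z : Fin k → ℝ) (R : Fin k → E3) (μ l : ℝ) (ρ : E3 → ℝ) : ℝ :=
  (3 / 5 : ℝ) * (∫ x, ρ x ^ ((5 : ℝ) / 3))
    - (∫ x, (∑ i, z i / ‖x - l • R i‖) * ρ x)
    + (1 / 2 : ℝ) * (∫ x, (∫ y, ρ x * ρ y / ‖x - y‖))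
    + μ * ∫ x, ρ x

/-- discretised TF functional -/
noncomputable def Fh (h : ℝ) (z : Fin k → ℝ) (R : Fin k → E3) (μ l : ℝ) (ρ : E3 → ℝ) : ℝ :=
  (3 / 5 : ℝ) * (∫ x, ρ x ^ ((5 : ℝ) / 3)) + 2 * π * h * (∫ x, ρ x ^ 2)
    - (∫ x, (∑ i, z i * vh h (x - l • R i)) * ρ x)
    + (1 / 2 : ℝ) * (∫ x, (∫ y, ρ x * ρ y * Ch h (x - y)))
    + μ * ∫ x, ρ x

/-- iteration `u_{n+1} = P_h (u_n - Γ(u_n)) + q`, `q(x) = ∑ z_i kap_h (x - Q_i)` -/
noncomputable def uIt (Γ : ℝ → ℝ) (h : ℝ) (z : Fin k → ℝ) (Q : Fin k → E3) : ℕ → E3 → ℝ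
  | 0 => fun _ => 0
  | n + 1 => fun x =>
      P h (fun y => uIt Γ h z Q n y - Γ (uIt Γ h z Q n y)) x + ∑ i, z i * kap h (x - Q i)

end Pool.Agent.H29.TF
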