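import Pool.Agent.H29.TF.Core
import Pool.Agent.H82.TF.C2Mono
import Pool.Agent.H82.TF.PartII
import Pool.Agent.H99.TF.Mollify

/-!
# PART I assembled, and the discretised decreasing differences
-/

open MeasureTheory Real Set

namespace Pool.Agent.H29.TF
variable {k : ℕ}

/-- PART I: expansions increase `∫ u_n`. -/
theorem U_mono (Γ : ℝ → ℝ) (hconv : ConvexOn ℝ univ Γ) (hmono : Monotone Γ)
    (hlip : ∀ a b, a ≤ b → Γ b - Γ a ≤ b - a) (μ : ℝ) (hμ : 0 < μ) (h0 : ∀ u ≤ μ, Γ u = 0)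
    (h : ℝ) (hh : 0 < h) (z : Fin k → ℝ) (hz : ∀ i, 0 < z i) (R : Fin k → E3) (l l' : ℝ)
    (hl : 0 < l) (hll : l ≤ l') (n : ℕ) :
    ∫ x, uIt Γ h z (fun i => l • R i) n x ≤ ∫ x, uIt Γ h z (fun i => l' • R i) n x := by
  refine U_mono_of_C2 h hh z hz R l l' hl hll n μ hμ ?_ Γ hconv hmono hlip h0
  intro G G1 G2 hG
  exact Pool.Agent.H82.TF.U_mono_C2_of hG hμ hh hz n (fun Q => core hG hh hz Q n) R l l' hl hll

/-- PART II: decreasing differences for the discretised functional. -/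
theorem DDh (h : ℝ) (hh : 0 < h) (z : Fin k → ℝ) (hz : ∀ i, 0 < z i) (R : Fin k → E3)
    (μ₁ μ₂ l l' : ℝ) (h2 : 0 < μ₂) (h12 : μ₂ < μ₁) (hl : 0 < l) (hll : l ≤ l')
    (σ τ : E3 → ℝ) (hσ : Adm2 σ) (hτ : Adm2 τ) (δ : ℝ) (hδ : 0 < δ) :
    ∃ ρ ρ' : E3 → ℝ, Adm2 ρ ∧ Adm2 ρ' ∧
      Fh h z R μ₁ l' ρ + Fh h z R μ₂ l ρ' ≤ Fh h z R μ₁ l σ + Fh h z R μ₂ l' τ + δ :=
  Pool.Agent.H82.TF.DDh_of_U h hh z hz R (fun G hc hm hlip mu hmu h0 l l' hl0 hll n =>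
    U_mono G hc hm hlip mu hmu h0 h hh z hz R l l' hl0 hll n) μ₁ μ₂ l l' h2 h12 hl hll σ τ hσ hτ δ hδ

end Pool.Agent.H29.TF
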