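import Pool.Agent.H29.TF.HeatDiff

/-!
# Functions with a central force decomposition

`Cen z Q f α`: `∇f(x) = -∑ z_i α_i(x) (x - Q_i)`.  This class is preserved by the modified heat
step `f ↦ P t (f + 2t ∑ z_i α_i)`, `α_i ↦ P t α_i`.
-/

open MeasureTheory Real Set Topology

namespace Pool.Agent.H29.TF

variable {V : Type*} [NormedAddCommGroup V] [InnerProductSpace ℝ V]
variable [MeasurableSpace V] [BorelSpace V] [FiniteDimensional ℝ V]

/-- continuous, integrable, `(1+‖x‖) α` bounded -/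
structure Nice (α : V → ℝ) : Prop where
  cont : Continuous α
  int : Integrable α
  bdd : ∃ C, ∀ x, (1 + ‖x‖) * |α x| ≤ C

theorem Nice.abs_le {α : V → ℝ} (h : Nice α) : ∃ C, ∀ x, |α x| ≤ C := by
  obtain ⟨C, hC⟩ := h.bdd
  refine ⟨C, fun x => le_trans ?_ (hC x)⟩
  nlinarith [norm_nonneg x, abs_nonneg (α x)]

theorem Nice.zero : Nice (fun _ : V => (0 : ℝ)) :=
  ⟨continuous_const, integrable_zero _ _ _, 0, fun x => by simp⟩

theorem Nice.mul {α β : V → ℝ} (h : Nice α) (hβ : Continuous β) (hb : ∃ C, ∀ x, |β x| ≤ C) :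
    Nice (fun x => β x * α x) := by
  obtain ⟨C, hC⟩ := hb
  obtain ⟨D, hD⟩ := h.bdd
  refine ⟨hβ.mul h.cont, h.int.bdd_mul hβ.aestronglyMeasurable
    (Filter.Eventually.of_forall hC), C * D, fun x => ?_⟩
  rw [abs_mul]
  calc (1 + ‖x‖) * (|β x| * |α x|) = |β x| * ((1 + ‖x‖) * |α x|) := by ring
    _ ≤ C * D := mul_le_mul (hC x) (hD x) (by positivity) ((abs_nonneg _).trans (hC x))

theorem Nice.add {α β : V → ℝ} (h : Nice α) (h' : Nice β) : Nice (fun x => α x + β x) := by
  obtain ⟨C, hC⟩ := h.bdd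
  obtain ⟨D, hD⟩ := h'.bdd
  refine ⟨h.cont.add h'.cont, h.int.add h'.int, C + D, fun x => ?_⟩
  calc (1 + ‖x‖) * |α x + β x| ≤ (1 + ‖x‖) * (|α x| + |β x|) :=
        mul_le_mul_of_nonneg_left (abs_add_le _ _) (by positivity)
    _ = (1 + ‖x‖) * |α x| + (1 + ‖x‖) * |β x| := by ring
    _ ≤ C + D := add_le_add (hC x) (hD x)

theorem Nice.const_mul {α : V → ℝ} (h : Nice α) (c : ℝ) : Nice (fun x => c * α x) :=
  h.mul continuous_const ⟨|c|, fun _ => le_rfl⟩

theorem Nice.sum {ι : Type*} (s : Finset ι) {α : ι → V → ℝ} (h : ∀ i ∈ s, Nice (α i)) :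
    Nice (fun x => ∑ i ∈ s, α i x) := by
  classical
  induction s using Finset.induction_on with
  | empty => simpa using Nice.zero
  | insert a s ha ih =>
    simp_rw [Finset.sum_insert ha]
    exact (h a (Finset.mem_insert_self _ _)).add (ih fun i hi => h i (Finset.mem_insert_of_mem hi))

theorem Nice.P {t : ℝ} (ht : 0 < t) {α : V → ℝ} (h : Nice α) : Nice (P t α) := by
  obtain ⟨C, hC⟩ := h.bdd
  obtain ⟨D, hD⟩ := h.abs_le
  have hC0 : 0 ≤ C := le_trans (by positivity) (hC 0)
  refine ⟨continuous_P ht h.cont.aestronglyMeasurable hD, integrable_P ht h.int,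
    C * (2 * (1 + 4 * t) * 2 ^ ((Module.finrank ℝ V : ℝ) / 2)), fun x => ?_⟩
  have h1 : (1 + ‖x‖) * |Pool.Agent.H29.TF.P t α x| ≤ ∫ y, C * ((1 + ‖x - y‖) * hk t (x - y)) := by
    have e : (1 + ‖x‖) * |Pool.Agent.H29.TF.P t α x| = ‖∫ y, (1 + ‖x‖) * (hk t (x - y) * α y)‖ := by
      rw [integral_const_mul, norm_mul, Real.norm_of_nonneg (by positivity : 0 ≤ 1 + ‖x‖),
        Real.norm_eq_abs]
      rfl
    rw [e]
    apply norm_integral_le_of_norm_le
    · exact ((integrable_one_add_norm_mul_hk ht).comp_sub_left x).const_mul C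
    · refine Filter.Eventually.of_forall fun y => ?_
      rw [norm_mul, norm_mul, Real.norm_of_nonneg (by positivity : 0 ≤ 1 + ‖x‖),
        Real.norm_of_nonneg (hk_nonneg ht.le _), Real.norm_eq_abs]
      have h3 : 1 + ‖x‖ ≤ (1 + ‖x - y‖) * (1 + ‖y‖) := by
        have : ‖x‖ ≤ ‖x - y‖ + ‖y‖ := by
          calc ‖x‖ = ‖(x - y) + y‖ := by congr 1; abel
            _ ≤ _ := norm_add_le _ _
        nlinarith [norm_nonneg (x - y), norm_nonneg y]
      calc (1 + ‖x‖) * (hk t (x - y) * |α y|)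
          ≤ ((1 + ‖x - y‖) * (1 + ‖y‖)) * (hk t (x - y) * |α y|) :=
            mul_le_mul_of_nonneg_right h3 (mul_nonneg (hk_nonneg ht.le _) (abs_nonneg _))
        _ = ((1 + ‖y‖) * |α y|) * ((1 + ‖x - y‖) * hk t (x - y)) := by ring
        _ ≤ C * ((1 + ‖x - y‖) * hk t (x - y)) :=
            mul_le_mul_of_nonneg_right (hC y) (mul_nonneg (by positivity) (hk_nonneg ht.le _))
  refine h1.trans ?_
  rw [integral_const_mul,
    integral_sub_left_eq_self (fun v : V => (1 + ‖v‖) * hk t v) volume x]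
  exact mul_le_mul_of_nonneg_left (integral_one_add_norm_mul_hk_le ht) hC0

variable {k : ℕ}

/-- central force decomposition -/
def Cen (z : Fin k → ℝ) (Q : Fin k → V) (f : V → ℝ) (α : Fin k → V → ℝ) : Prop :=
  ∀ x, HasFDerivAt (𝕜 := ℝ) f (innerSL ℝ (-∑ i, (z i * α i x) • (x - Q i)) : V →L[ℝ] ℝ) x

omit [MeasurableSpace V] [BorelSpace V] [FiniteDimensional ℝ V] in
theorem Cen.cont {z : Fin k → ℝ} {Q : Fin k → V} {f : V → ℝ} {α : Fin k → V → ℝ}
    (h : Cen z Q f α) : Continuous f :=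
  continuous_iff_continuousAt.2 fun x => (h x).continuousAt

/-- the gradient is bounded -/
theorem Nice.grad_bdd {z : Fin k → ℝ} {Q : Fin k → V} {α : Fin k → V → ℝ}
    (hα : ∀ i, Nice (α i)) : ∃ D, ∀ x, ‖-∑ i, (z i * α i x) • (x - Q i)‖ ≤ D := by
  choose C hC using fun i => (hα i).bdd
  refine ⟨∑ i, |z i| * ((1 + ‖Q i‖) * C i), fun x => ?_⟩
  rw [norm_neg]
  refine (norm_sum_le _ _).trans (Finset.sum_le_sum fun i _ => ?_)
  rw [norm_smul, norm_mul, Real.norm_eq_abs, Real.norm_eq_abs, mul_assoc]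
  apply mul_le_mul_of_nonneg_left _ (abs_nonneg _)
  have h3 : ‖x - Q i‖ ≤ (1 + ‖Q i‖) * (1 + ‖x‖) := by
    have := norm_sub_le x (Q i)
    nlinarith [norm_nonneg x, norm_nonneg (Q i)]
  calc |α i x| * ‖x - Q i‖ ≤ |α i x| * ((1 + ‖Q i‖) * (1 + ‖x‖)) :=
        mul_le_mul_of_nonneg_left h3 (abs_nonneg _)
    _ = (1 + ‖Q i‖) * ((1 + ‖x‖) * |α i x|) := by ring
    _ ≤ _ := mul_le_mul_of_nonneg_left (hC i x) (by positivity)

theorem Nice.grad_cont {z : Fin k → ℝ} {Q : Fin k → V} {α : Fin k → V → ℝ}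
    (hα : ∀ i, Nice (α i)) : Continuous fun x => -∑ i, (z i * α i x) • (x - Q i) := by
  refine (continuous_finsetSum _ fun i _ => ?_).neg
  exact (((hα i).cont).const_mul _ |>.smul (continuous_id.sub continuous_const) : )

/-- **Key commutation lemma**: the modified heat step preserves central decompositions. -/
theorem Cen.P {z : Fin k → ℝ} {Q : Fin k → V} {f : V → ℝ} {α : Fin k → V → ℝ}
    (h : Cen z Q f α) (hf : ∃ C, ∀ x, |f x| ≤ C) (hα : ∀ i, Nice (α i)) {t : ℝ} (ht : 0 < t) :
    Cen z Q (P t (fun y => f y + 2 * t * ∑ i, z i * α i y)) (fun i => P t (α i)) := by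
  intro x
  obtain ⟨C, hC⟩ := hf
  obtain ⟨D, hD⟩ := Nice.grad_bdd (z := z) (Q := Q) hα
  have hφ : Nice (fun y => ∑ i, z i * α i y) := Nice.sum _ fun i _ => (hα i).const_mul _
  obtain ⟨B, hB⟩ := hφ.abs_le
  have hfm : AEStronglyMeasurable f volume := h.cont.aestronglyMeasurable
  have hgc := Nice.grad_cont (z := z) (Q := Q) hα
  have e : Pool.Agent.H29.TF.P t (fun y => f y + 2 * t * ∑ i, z i * α i y) =
      fun x => Pool.Agent.H29.TF.P t f x + 2 * t * Pool.Agent.H29.TF.P t (fun y => ∑ i, z i * α i y) x := by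
    ext x
    rw [P_add x (integrable_hk_mul ht hfm hC x), P_const_mul]
    have := (integrable_hk_mul ht hφ.cont.aestronglyMeasurable hB x).const_mul (2 * t)
    refine this.congr (Filter.Eventually.of_forall fun y => ?_)
    simp only; ring
  rw [e]
  have h1 := hasFDerivAt_P_of_grad ht hC hgc.aestronglyMeasurable hD h x
  have h2 := (hasFDerivAt_P ht hφ.cont.aestronglyMeasurable hB x).const_mul (2 * t)
  refine (h1.add h2).congr_fderiv ?_
  have i1 : Integrable (fun y => hk t (x - y) • (innerSL ℝ (-∑ i, (z i * α i y) • (y - Q i)) : V →L[ℝ] ℝ)) := by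
    refine Integrable.mono' ((integrable_hk_sub ht x).mul_const D) ?_
      (Filter.Eventually.of_forall fun y => ?_)
    · exact (Continuous.aestronglyMeasurable (f := fun y : V => hk t (x - y)) (by fun_prop)).smul
        ((innerSL ℝ : V →L⋆[ℝ] V →L[ℝ] ℝ).continuous.comp hgc).aestronglyMeasurable
    · rw [norm_smul, innerSL_apply_norm, Real.norm_of_nonneg (hk_nonneg ht.le _)]
      exact mul_le_mul_of_nonneg_left (hD y) (hk_nonneg ht.le _)
  have i2 : Integrable (fun y => (-(1 / (2 * t)) * (hk t (x - y) * ∑ i, z i * α i y)) •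
      (innerSL ℝ (x - y) : V →L[ℝ] ℝ)) := by
    refine Integrable.mono' (((integrable_one_add_norm_mul_hk ht).comp_sub_left x).const_mul
      (1 / (2 * t) * B)) ?_ (Filter.Eventually.of_forall fun y => ?_)
    · exact ((integrable_hk_mul ht hφ.cont.aestronglyMeasurable hB x).aestronglyMeasurable.const_mul
        (-(1 / (2 * t)))).smul
        (Continuous.aestronglyMeasurable
          (f := fun y : V => (innerSL ℝ (x - y) : V →L[ℝ] ℝ)) (by fun_prop))
    · rw [norm_smul, innerSL_apply_norm, norm_mul, norm_neg, norm_mul,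
        Real.norm_of_nonneg (by positivity : 0 ≤ 1 / (2 * t)),
        Real.norm_of_nonneg (hk_nonneg ht.le _), Real.norm_eq_abs]
      have : ‖x - y‖ * hk t (x - y) ≤ (1 + ‖x - y‖) * hk t (x - y) :=
        mul_le_mul_of_nonneg_right (by linarith) (hk_nonneg ht.le _)
      calc 1 / (2 * t) * (hk t (x - y) * |∑ i, z i * α i y|) * ‖x - y‖
          = 1 / (2 * t) * |∑ i, z i * α i y| * (‖x - y‖ * hk t (x - y)) := by ring
        _ ≤ 1 / (2 * t) * B * ((1 + ‖x - y‖) * hk t (x - y)) := by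
          apply mul_le_mul (mul_le_mul_of_nonneg_left (hB y) (by positivity)) this
            (mul_nonneg (norm_nonneg _) (hk_nonneg ht.le _))
            (mul_nonneg (by positivity) ((abs_nonneg _).trans (hB y)))
  ext w
  rw [add_apply, smul_apply,
    ContinuousLinearMap.integral_apply i1, ContinuousLinearMap.integral_apply i2, smul_eq_mul,
    ← integral_const_mul, ← integral_add]
  · simp only [smul_apply, innerSL_apply_apply, smul_eq_mul, inner_neg_left,
      sum_inner, inner_smul_left, conj_trivial]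
    have e2 : ∀ i, z i * Pool.Agent.H29.TF.P t (α i) x * inner ℝ (x - Q i) w =
        ∫ y, hk t (x - y) * (z i * α i y * inner ℝ (x - Q i) w) := by
      intro i
      unfold Pool.Agent.H29.TF.P
      rw [← integral_const_mul, ← integral_mul_const]
      congr 1; ext y; ring
    simp_rw [e2]
    rw [← integral_finsetSum, ← integral_neg]
    · congr 1
      ext y
      have e3 : ∀ i, inner ℝ (y - Q i) w = inner ℝ (x - Q i) w - inner ℝ (x - y) w := by
        intro i
        rw [← inner_sub_left]; congr 1; abel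
      simp_rw [e3]
      have e4 : 2 * t * (-(1 / (2 * t)) * (hk t (x - y) * ∑ i, z i * α i y) * inner ℝ (x - y) w) =
          -(hk t (x - y) * ((∑ i, z i * α i y) * inner ℝ (x - y) w)) := by
        field_simp
      have e5 : ∑ i, z i * α i y * (inner ℝ (x - Q i) w - inner ℝ (x - y) w) =
          ∑ i, z i * α i y * inner ℝ (x - Q i) w - (∑ i, z i * α i y) * inner ℝ (x - y) w := by
        rw [Finset.sum_mul, ← Finset.sum_sub_distrib]
        exact Finset.sum_congr rfl fun i _ => by ring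
      rw [e4, e5, ← Finset.mul_sum]
      ring
    · intro i _
      obtain ⟨Ci, hCi⟩ := (hα i).abs_le
      have := (integrable_hk_mul ht (hα i).cont.aestronglyMeasurable hCi x).mul_const
        (z i * inner ℝ (x - Q i) w)
      refine this.congr (Filter.Eventually.of_forall fun y => ?_)
      simp only; ring
  · exact i1.apply_continuousLinearMap w
  · exact (i2.apply_continuousLinearMap w).const_mul _

end Pool.Agent.H29.TF
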