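import Pool.Agent.H29.TF.Kappa

/-!
# PART I.1: forward and backward recursions in dimension 5
-/

open MeasureTheory Real Set Topology

namespace Pool.Agent.H29.TF

variable {k : ℕ}

section cen
variable {V : Type*} [NormedAddCommGroup V] [InnerProductSpace ℝ V]

theorem Cen.comp {z : Fin k → ℝ} {Q : Fin k → V} {f : V → ℝ} {α : Fin k → V → ℝ}
    (h : Cen z Q f α) {S S' : ℝ → ℝ} (hS : ∀ u, HasDerivAt S (S' u) u) :
    Cen z Q (fun x => S (f x)) (fun i x => S' (f x) * α i x) := by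
  intro x
  have h1 := (hS (f x)).comp_hasFDerivAt x (h x)
  refine h1.congr_fderiv ?_
  ext w
  rw [smul_apply, innerSL_apply_apply, innerSL_apply_apply, inner_neg_left, inner_neg_left,
    sum_inner, sum_inner, smul_eq_mul, mul_neg, Finset.mul_sum]
  congr 1
  refine Finset.sum_congr rfl fun i _ => ?_
  rw [inner_smul_left, inner_smul_left, conj_trivial, conj_trivial]
  ring

theorem Cen.mul {z : Fin k → ℝ} {Q : Fin k → V} {f g : V → ℝ} {α β : Fin k → V → ℝ}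
    (h : Cen z Q f α) (h' : Cen z Q g β) :
    Cen z Q (fun x => f x * g x) (fun i x => f x * β i x + g x * α i x) := by
  intro x
  have h1 := (h x).mul (h' x)
  refine h1.congr_fderiv ?_
  ext w
  simp only [add_apply, smul_apply, innerSL_apply_apply, inner_neg_left, sum_inner, smul_eq_mul,
    mul_neg, Finset.mul_sum]
  rw [← neg_add, ← Finset.sum_add_distrib]
  congr 1
  refine Finset.sum_congr rfl fun i _ => ?_
  rw [inner_smul_left, inner_smul_left, inner_smul_left, conj_trivial, conj_trivial, conj_trivial]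
  ring

theorem Cen.add {z : Fin k → ℝ} {Q : Fin k → V} {f g : V → ℝ} {α β : Fin k → V → ℝ}
    (h : Cen z Q f α) (h' : Cen z Q g β) :
    Cen z Q (fun x => f x + g x) (fun i x => α i x + β i x) := by
  intro x
  have h1 := (h x).add (h' x)
  refine h1.congr_fderiv ?_
  ext w
  simp only [add_apply, innerSL_apply_apply, inner_neg_left, sum_inner]
  rw [← neg_add, ← Finset.sum_add_distrib]
  congr 1
  refine Finset.sum_congr rfl fun i _ => ?_
  rw [inner_smul_left, inner_smul_left, inner_smul_left, conj_trivial, conj_trivial, conj_trivial]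
  ring

theorem Cen.const (z : Fin k → ℝ) (Q : Fin k → V) (c : ℝ) :
    Cen z Q (fun _ => c) (fun _ _ => 0) := by
  intro x
  refine (hasFDerivAt_const c x).congr_fderiv ?_
  ext w
  simp

end cen

/-- forward recursion: potential and force coefficients -/
noncomputable def Ua (Γ Γ1 : ℝ → ℝ) (h : ℝ) (z : Fin k → ℝ) (Q : Fin k → E3) :
    ℕ → (W → ℝ) × (Fin k → W → ℝ)
  | 0 => (fun _ => 0, fun _ _ => 0)
  | n + 1 =>
    (fun X => P h (fun Y => ((Ua Γ Γ1 h z Q n).1 Y - Γ ((Ua Γ Γ1 h z Q n).1 Y)) +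
        2 * h * ∑ i, z i * ((1 - Γ1 ((Ua Γ Γ1 h z Q n).1 Y)) * (Ua Γ Γ1 h z Q n).2 i Y)) X +
        qhat h z Q X,
     fun i X => P h (fun Y => (1 - Γ1 ((Ua Γ Γ1 h z Q n).1 Y)) * (Ua Γ Γ1 h z Q n).2 i Y) X +
        a0 h (X - emb (Q i)))

variable {Γ Γ1 Γ2 : ℝ → ℝ} {μ : ℝ}

theorem GC2.contΓ1 (hG : GC2 Γ Γ1 Γ2 μ) : Continuous Γ1 :=
  continuous_iff_continuousAt.2 fun u => (hG.d2 u).continuousAt

theorem GC2.contΓ (hG : GC2 Γ Γ1 Γ2 μ) : Continuous Γ :=
  continuous_iff_continuousAt.2 fun u => (hG.d1 u).continuousAt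

theorem GC2.derivS (hG : GC2 Γ Γ1 Γ2 μ) (u : ℝ) :
    HasDerivAt (fun u => u - Γ u) (1 - Γ1 u) u := (hasDerivAt_id u).sub (hG.d1 u)

theorem GC2.derivS1 (hG : GC2 Γ Γ1 Γ2 μ) (u : ℝ) :
    HasDerivAt (fun u => 1 - Γ1 u) (-Γ2 u) u := by
  have := (hasDerivAt_const u (1 : ℝ)).fun_sub (hG.d2 u)
  rwa [zero_sub] at this

theorem GC2.S1_nonneg (hG : GC2 Γ Γ1 Γ2 μ) (u : ℝ) : 0 ≤ 1 - Γ1 u := by
  linarith [hG.l1 u]

theorem GC2.S1_le (hG : GC2 Γ Γ1 Γ2 μ) (u : ℝ) : 1 - Γ1 u ≤ 1 := by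
  linarith [hG.n1 u]

theorem GC2.abs_S1_le (hG : GC2 Γ Γ1 Γ2 μ) (u : ℝ) : |1 - Γ1 u| ≤ 1 := by
  rw [abs_of_nonneg (hG.S1_nonneg u)]; exact hG.S1_le u

structure UaProp (Γ Γ1 : ℝ → ℝ) (h : ℝ) (z : Fin k → ℝ) (Q : Fin k → E3) (n : ℕ) : Prop where
  cen : Cen z (fun i => emb (Q i)) (Ua Γ Γ1 h z Q n).1 (Ua Γ Γ1 h z Q n).2
  bdd : ∃ C, ∀ X, |(Ua Γ Γ1 h z Q n).1 X| ≤ C
  nice : ∀ i, Nice ((Ua Γ Γ1 h z Q n).2 i)
  nonneg : ∀ i X, 0 ≤ (Ua Γ Γ1 h z Q n).2 i X
  emb : ∀ x, (Ua Γ Γ1 h z Q n).1 (emb x) = uIt Γ h z Q n x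

theorem uaProp (hG : GC2 Γ Γ1 Γ2 μ) {h : ℝ} (hh : 0 < h) (z : Fin k → ℝ)
    (Q : Fin k → E3) (n : ℕ) : UaProp Γ Γ1 h z Q n := by
  induction n with
  | zero =>
    exact ⟨Cen.const _ _ _, ⟨0, fun X => by simp [Ua]⟩, fun i => Nice.zero, fun i X => le_rfl,
      fun x => rfl⟩
  | succ n ih =>
    obtain ⟨hcen, hbdd, hnice, hnn, hemb⟩ := ih
    set U := (Ua Γ Γ1 h z Q n).1 with hU
    set a := (Ua Γ Γ1 h z Q n).2 with ha
    have hcenS : Cen z (fun i => TF.emb (Q i)) (fun X => U X - Γ (U X))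
        (fun i X => (1 - Γ1 (U X)) * a i X) := hcen.comp hG.derivS
    have hbddS : ∃ C, ∀ X, |U X - Γ (U X)| ≤ C := by
      obtain ⟨C, hC⟩ := hbdd
      obtain ⟨D, hD⟩ := (isCompact_Icc (a := -C) (b := C)).exists_bound_of_continuousOn
        (f := fun u => u - Γ u) ((continuous_id.sub hG.contΓ).continuousOn)
      exact ⟨D, fun X => hD _ (abs_le.1 (hC X))⟩
    have hS1c : Continuous fun X => 1 - Γ1 (U X) :=
      continuous_const.sub (hG.contΓ1.comp hcen.cont)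
    have hniceS : ∀ i, Nice (fun X => (1 - Γ1 (U X)) * a i X) := fun i =>
      (hnice i).mul hS1c ⟨1, fun X => hG.abs_S1_le _⟩
    have hPcen := (hcenS.P hbddS hniceS hh).add (cen_qhat hh z Q)
    refine ⟨hPcen, ?_, ?_, ?_, ?_⟩
    · obtain ⟨C, hC⟩ := hbddS
      obtain ⟨D, hD⟩ := (Nice.sum Finset.univ fun i _ => (hniceS i).const_mul (z i)).abs_le
      obtain ⟨E, hE⟩ := qhat_bdd hh z Q
      refine ⟨(C + 2 * h * D) + E, fun X => ?_⟩
      refine (abs_add_le _ _).trans (add_le_add ?_ (hE X))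
      apply abs_P_le hh
      intro Y
      refine (abs_add_le _ _).trans (add_le_add (hC Y) ?_)
      rw [abs_mul, abs_of_pos (by positivity : 0 < 2 * h)]
      exact mul_le_mul_of_nonneg_left (hD Y) (by positivity)
    · intro i
      exact ((hniceS i).P hh).add (nice_a0_sub hh _)
    · intro i X
      exact add_nonneg (P_nonneg hh.le (fun Y => mul_nonneg (hG.S1_nonneg _) (hnn i Y)) _)
        (a0_nonneg hh _)
    · intro x
      have h1 := slice hcenS hbddS hniceS hh x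
      have h2 : (Ua Γ Γ1 h z Q (n + 1)).1 (TF.emb x) =
          P h (fun Y => (U Y - Γ (U Y)) + 2 * h * ∑ i, z i * ((1 - Γ1 (U Y)) * a i Y))
            (TF.emb x) + qhat h z Q (TF.emb x) := rfl
      rw [h2, h1, qhat_emb hh]
      simp_rw [hemb]
      rfl

/-- backward recursion (index = number of steps from the end) -/
noncomputable def pe (Γ Γ1 Γ2 : ℝ → ℝ) (h : ℝ) (z : Fin k → ℝ) (Q : Fin k → E3) (n : ℕ) :
    ℕ → (W → ℝ) × (Fin k → W → ℝ)
  | 0 => (fun _ => 1, fun _ _ => 0)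
  | j + 1 =>
    (fun X => (1 - Γ1 ((Ua Γ Γ1 h z Q (n - 1 - j)).1 X)) *
      P h (fun Y => (pe Γ Γ1 Γ2 h z Q n j).1 Y +
        2 * h * ∑ i, z i * (-(pe Γ Γ1 Γ2 h z Q n j).2 i Y)) X,
     fun i X => (1 - Γ1 ((Ua Γ Γ1 h z Q (n - 1 - j)).1 X)) * P h ((pe Γ Γ1 Γ2 h z Q n j).2 i) X +
      (Γ2 ((Ua Γ Γ1 h z Q (n - 1 - j)).1 X) *
        P h (fun Y => (pe Γ Γ1 Γ2 h z Q n j).1 Y +
        2 * h * ∑ i, z i * (-(pe Γ Γ1 Γ2 h z Q n j).2 i Y)) X) *
        (Ua Γ Γ1 h z Q (n - 1 - j)).2 i X)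

/-- properties of a backward state `(p, e)` -/
structure PeProp (z : Fin k → ℝ) (Q : Fin k → E3) (p : W → ℝ) (e : Fin k → W → ℝ) : Prop where
  cen : Cen z (fun i => emb (Q i)) p (fun i X => -e i X)
  bdd : ∃ C, ∀ X, |p X| ≤ C
  nice : ∀ i, Nice (e i)
  nonneg : ∀ i X, 0 ≤ e i X
  p_nonneg : ∀ x, 0 ≤ p (emb x)
  p_le : ∀ x, p (emb x) ≤ 1

theorem Nice.neg {V : Type*} [NormedAddCommGroup V] [InnerProductSpace ℝ V]
    [MeasurableSpace V] [BorelSpace V] [FiniteDimensional ℝ V] {α : V → ℝ} (h : Nice α) :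
    Nice (fun x => -α x) := by
  have := h.const_mul (-1)
  simpa using this

theorem P_neg {V : Type*} [NormedAddCommGroup V] [InnerProductSpace ℝ V]
    [MeasurableSpace V] [BorelSpace V] [FiniteDimensional ℝ V] (t : ℝ) (f : V → ℝ) :
    P t (fun x => -f x) = fun x => -P t f x := by
  ext x
  have := P_const_mul t (-1) f x
  simpa using this

theorem P_one_le {t : ℝ} (ht : 0 < t) {f : E3 → ℝ}
    (h0 : ∀ x, 0 ≤ f x) (h1 : ∀ x, f x ≤ 1) (x : E3) : P t f x ≤ 1 := by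
  have := abs_P_le ht (f := f) (C := 1) (fun x => by rw [abs_of_nonneg (h0 x)]; exact h1 x) x
  exact (le_abs_self _).trans this

theorem continuous_emb : Continuous emb := by
  unfold emb
  exact (WithLp.prodContinuousLinearEquiv 2 ℝ E3 ℂ).symm.continuous.comp (by fun_prop)

section step
variable {z : Fin k → ℝ} {Q : Fin k → E3} {p : W → ℝ} {e : Fin k → W → ℝ}

/-- the adjoint heat step -/
noncomputable def qq (t : ℝ) (z : Fin k → ℝ) (p : W → ℝ) (e : Fin k → W → ℝ) (X : W) : ℝ :=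
  P t (fun Y => p Y + 2 * t * ∑ i, z i * (-e i Y)) X

theorem PeProp.qq_cen (hp : PeProp z Q p e) {t : ℝ} (ht : 0 < t) :
    Cen z (fun i => emb (Q i)) (qq t z p e) (fun i X => -P t (e i) X) := by
  have := hp.cen.P hp.bdd (fun i => (hp.nice i).neg) ht
  simp_rw [P_neg] at this
  exact this

theorem PeProp.qq_slice (hp : PeProp z Q p e) {t : ℝ} (ht : 0 < t) (x : E3) :
    qq t z p e (emb x) = P t (fun x' => p (emb x')) x :=
  slice hp.cen hp.bdd (fun i => (hp.nice i).neg) ht x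

theorem PeProp.qq_nonneg (hz : ∀ i, 0 < z i) (hp : PeProp z Q p e) {t : ℝ} (ht : 0 < t) (X : W) :
    0 ≤ qq t z p e X := by
  have h0 : ∀ x, 0 ≤ qq t z p e (emb x) := fun x => by
    rw [hp.qq_slice ht]
    exact P_nonneg ht.le (fun x' => hp.p_nonneg x') x
  obtain ⟨⟨x, y⟩, rfl⟩ : ∃ q : E3 × ℂ, X = WithLp.toLp 2 q := ⟨WithLp.ofLp X, rfl⟩
  have hd := fun r : ℝ => (hp.qq_cen ht).ray x y r
  have hmono : MonotoneOn (fun r : ℝ => qq t z p e (WithLp.toLp 2 (x, (r : ℂ) * y))) (Icc 0 1) := by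
    apply monotoneOn_of_deriv_nonneg (convex_Icc 0 1)
    · exact fun r _ => (hd r).continuousAt.continuousWithinAt
    · exact fun r _ => (hd r).differentiableAt.differentiableWithinAt
    · intro r hr
      rw [interior_Icc] at hr
      rw [(hd r).deriv]
      have h1 : ∀ i ∈ Finset.univ, z i * (-P t (e i) (WithLp.toLp 2 (x, (r : ℂ) * y))) ≤ 0 := by
        intro i _
        have := P_nonneg ht.le (hp.nonneg i) (WithLp.toLp 2 (x, (r : ℂ) * y))
        nlinarith [(hz i)]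
      have h2 := Finset.sum_nonpos h1
      have h3 : 0 ≤ r * ‖y‖ ^ 2 := mul_nonneg hr.1.le (sq_nonneg _)
      nlinarith
  have h1 := hmono (left_mem_Icc.2 zero_le_one) (right_mem_Icc.2 zero_le_one) zero_le_one
  simp only [Complex.ofReal_zero, zero_mul, Complex.ofReal_one, one_mul] at h1
  exact (h0 x).trans h1

theorem PeProp.qq_bdd (hp : PeProp z Q p e) {t : ℝ} (ht : 0 < t) : ∃ C, ∀ X, |qq t z p e X| ≤ C := by
  obtain ⟨C, hC⟩ := hp.bdd
  obtain ⟨D, hD⟩ := (Nice.sum Finset.univ fun i _ => ((hp.nice i).neg).const_mul (z i)).abs_le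
  refine ⟨C + 2 * t * D, fun X => ?_⟩
  unfold qq
  apply abs_P_le ht
  intro Y
  refine (abs_add_le _ _).trans (add_le_add (hC Y) ?_)
  rw [abs_mul, abs_of_pos (by positivity : 0 < 2 * t)]
  exact mul_le_mul_of_nonneg_left (hD Y) (by positivity)

theorem PeProp.step (hG : GC2 Γ Γ1 Γ2 μ) (hz : ∀ i, 0 < z i) (hp : PeProp z Q p e)
    {h : ℝ} (hh : 0 < h) {m : ℕ} (hU : UaProp Γ Γ1 h z Q m) :
    PeProp z Q (fun X => (1 - Γ1 ((Ua Γ Γ1 h z Q m).1 X)) * qq h z p e X)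
      (fun i X => (1 - Γ1 ((Ua Γ Γ1 h z Q m).1 X)) * P h (e i) X +
      (Γ2 ((Ua Γ Γ1 h z Q m).1 X) * qq h z p e X) * (Ua Γ Γ1 h z Q m).2 i X) := by
  set U := (Ua Γ Γ1 h z Q m).1 with hUd
  set a := (Ua Γ Γ1 h z Q m).2 with had
  obtain ⟨C2, hC2⟩ := hG.b2
  have hS1c : Continuous fun X => 1 - Γ1 (U X) :=
    continuous_const.sub (hG.contΓ1.comp hU.cen.cont)
  have hqc : Continuous (qq h z p e) := (hp.qq_cen hh).cont
  obtain ⟨Cq, hCq⟩ := hp.qq_bdd hh
  have hrc : Continuous fun X => Γ2 (U X) * qq h z p e X := (hG.c2.comp hU.cen.cont).mul hqc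
  have hrb : ∃ C, ∀ X, |Γ2 (U X) * qq h z p e X| ≤ C := by
    refine ⟨C2 * Cq, fun X => ?_⟩
    rw [abs_mul, abs_of_nonneg (hG.n2 _)]
    exact mul_le_mul (hC2 _) (hCq X) (abs_nonneg _) ((hG.n2 (U X)).trans (hC2 _))
  refine ⟨?_, ?_, ?_, ?_, ?_, ?_⟩
  · have h1 := (hU.cen.comp hG.derivS1).mul (hp.qq_cen hh)
    have h2 : (fun (i : Fin k) X => (1 - Γ1 (U X)) * -P h (e i) X + qq h z p e X * (-Γ2 (U X) * a i X)) =
      fun i X => -((1 - Γ1 (U X)) * P h (e i) X + (Γ2 (U X) * qq h z p e X) * a i X) := by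
      ext i X; ring
    rw [← h2]
    exact h1
  · refine ⟨1 * Cq, fun X => ?_⟩
    rw [abs_mul]
    exact mul_le_mul (hG.abs_S1_le _) (hCq X) (abs_nonneg _) zero_le_one
  · intro i
    exact (((hp.nice i).P hh).mul hS1c ⟨1, fun X => hG.abs_S1_le _⟩).add ((hU.nice i).mul hrc hrb)
  · intro i X
    refine add_nonneg (mul_nonneg (hG.S1_nonneg _) (P_nonneg hh.le (hp.nonneg i) _)) ?_
    exact mul_nonneg (mul_nonneg (hG.n2 _) (hp.qq_nonneg hz hh X)) (hU.nonneg i X)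
  · intro x
    exact mul_nonneg (hG.S1_nonneg _) (hp.qq_nonneg hz hh _)
  · intro x
    rw [hp.qq_slice hh]
    have h1 : P h (fun x' => p (emb x')) x ≤ 1 :=
      P_one_le hh hp.p_nonneg hp.p_le x
    have h2 : 0 ≤ P h (fun x' => p (emb x')) x := P_nonneg hh.le (fun x' => hp.p_nonneg x') x
    calc (1 - Γ1 (U (emb x))) * P h (fun x' => p (emb x')) x ≤ 1 * 1 :=
          mul_le_mul (hG.S1_le _) h1 h2 zero_le_one
      _ = 1 := one_mul 1

end step

theorem peProp (hG : GC2 Γ Γ1 Γ2 μ) {h : ℝ} (hh : 0 < h) {z : Fin k → ℝ} (hz : ∀ i, 0 < z i)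
    (Q : Fin k → E3) (n j : ℕ) :
    PeProp z Q (pe Γ Γ1 Γ2 h z Q n j).1 (pe Γ Γ1 Γ2 h z Q n j).2 := by
  induction j with
  | zero =>
    refine ⟨?_, ⟨1, fun X => by simp [pe]⟩, fun i => Nice.zero, fun i X => le_rfl,
      fun x => zero_le_one, fun x => le_rfl⟩
    have := Cen.const z (fun i => emb (Q i)) (1 : ℝ)
    simpa [pe] using this
  | succ j ih => exact ih.step hG hz hh (uaProp hG hh z Q (n - 1 - j))

/-- one step of the duality identity -/
theorem dual_step {h : ℝ} (hh : 0 < h) {s r e ai aj b : W → ℝ} (hs : Continuous s)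
    (hsb : ∃ C, ∀ X, |s X| ≤ C) (hr : Continuous r) (hrb : ∃ C, ∀ X, |r X| ≤ C)
    (he : Nice e) (hai : Nice ai) (haj : Nice aj) (hb : Nice b) :
    ∫ X, (s X * P h e X + r X * ai X) * aj X =
      (∫ X, e X * (P h (fun Y => s Y * aj Y) X + b X)) - (∫ X, e X * b X) +
        ∫ X, r X * (ai X * aj X) := by
  obtain ⟨Cs, hCs⟩ := (haj.mul hs hsb).abs_le
  obtain ⟨Cj, hCj⟩ := haj.abs_le
  obtain ⟨Cb, hCb⟩ := hb.abs_le
  obtain ⟨Cr, hCr⟩ := hrb
  have hsj : Nice (fun Y => s Y * aj Y) := haj.mul hs hsb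
  have hPsj := hsj.P hh
  obtain ⟨Cp, hCp⟩ := hPsj.abs_le
  have i1 : Integrable (fun X => (s X * aj X) * P h e X) :=
    (integrable_P hh he.int).bdd_mul hsj.cont.aestronglyMeasurable (Filter.Eventually.of_forall hCs)
  have i2 : Integrable (fun X => r X * (ai X * aj X)) := by
    refine Integrable.bdd_mul ?_ hr.aestronglyMeasurable (Filter.Eventually.of_forall hCr)
    exact hai.int.mul_bdd haj.cont.aestronglyMeasurable (Filter.Eventually.of_forall hCj)
  have i3 : Integrable (fun X => e X * P h (fun Y => s Y * aj Y) X) :=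
    he.int.mul_bdd hPsj.cont.aestronglyMeasurable (Filter.Eventually.of_forall hCp)
  have i4 : Integrable (fun X => e X * b X) :=
    he.int.mul_bdd hb.cont.aestronglyMeasurable (Filter.Eventually.of_forall hCb)
  have e1 : ∫ X, (s X * P h e X + r X * ai X) * aj X =
      (∫ X, (s X * aj X) * P h e X) + ∫ X, r X * (ai X * aj X) := by
    rw [← integral_add i1 i2]
    congr 1; ext X; ring
  have e2 : ∫ X, e X * (P h (fun Y => s Y * aj Y) X + b X) =
      (∫ X, e X * P h (fun Y => s Y * aj Y) X) + ∫ X, e X * b X := by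
    rw [← integral_add i3 i4]
    congr 1; ext X; ring
  have e3 : ∫ X, (s X * aj X) * P h e X = ∫ X, e X * P h (fun Y => s Y * aj Y) X := by
    rw [P_selfadj hh he.int hsj.cont.aestronglyMeasurable hCs]
    congr 1; ext X; ring
  rw [e1, e2, e3]
  ring

/-- embedding as a continuous linear map -/
noncomputable def embL : E3 →L[ℝ] W :=
  (WithLp.prodContinuousLinearEquiv 2 ℝ E3 ℂ).symm.toContinuousLinearMap.comp
    (ContinuousLinearMap.inl ℝ E3 ℂ)

theorem embL_apply (x : E3) : embL x = emb x := rfl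

theorem inner_emb (x y : E3) : inner ℝ (emb x) (emb y) = inner ℝ x y := by
  unfold emb
  rw [inner_W]; simp

/-- **PART I.1** -/
theorem core (hG : GC2 Γ Γ1 Γ2 μ) {h : ℝ} (hh : 0 < h) {z : Fin k → ℝ} (hz : ∀ i, 0 < z i)
    (Q : Fin k → E3) (n : ℕ) :
    ∃ (p : ℕ → E3 → ℝ) (e : ℕ → Fin k → W → ℝ), CoreData Γ Γ1 h z Q n p e := by
  have hP := peProp hG hh hz Q n
  have hU := uaProp hG hh z Q
  set pW : ℕ → W → ℝ := fun m => (pe Γ Γ1 Γ2 h z Q n (n - m)).1 with hpW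
  set e : ℕ → Fin k → W → ℝ := fun m => (pe Γ Γ1 Γ2 h z Q n (n - m)).2 with he
  have hPm : ∀ m, PeProp z Q (pW m) (e m) := fun m => hP (n - m)
  have hstep : ∀ m < n, (pW m = fun X => (1 - Γ1 ((Ua Γ Γ1 h z Q m).1 X)) *
      qq h z (pW (m + 1)) (e (m + 1)) X) ∧
      (e m = fun i X => (1 - Γ1 ((Ua Γ Γ1 h z Q m).1 X)) * P h (e (m + 1) i) X +
      (Γ2 ((Ua Γ Γ1 h z Q m).1 X) * qq h z (pW (m + 1)) (e (m + 1)) X) *
        (Ua Γ Γ1 h z Q m).2 i X) := by
    intro m hm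
    have h1 : n - m = (n - (m + 1)) + 1 := by omega
    have h2 : n - 1 - (n - (m + 1)) = m := by omega
    simp only [hpW, he]
    rw [h1]
    simp only [pe, h2]
    exact ⟨rfl, rfl⟩
  refine ⟨fun m x => pW m (emb x), e, ?_, ?_, ?_, ?_, ?_, ?_, ?_, ?_, ?_⟩
  · exact fun m _ => (hPm m).cen.cont.comp continuous_emb
  · exact fun m _ x => (hPm m).p_nonneg x
  · exact fun m _ x => (hPm m).p_le x
  · intro x
    simp only [hpW, Nat.sub_self, pe]
  · intro m hm x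
    rw [(hstep m hm).1]
    simp only
    rw [(hPm (m + 1)).qq_slice hh, (hU m).emb]
  · exact fun m _ => (hPm m).nice
  · exact fun m _ => (hPm m).nonneg
  · intro m _ t ht x
    have h1 := (hPm m).qq_cen ht (emb x)
    have h2 : HasFDerivAt (𝕜 := ℝ) (fun x : E3 => emb x) embL x := embL.hasFDerivAt
    have h3 := h1.comp x h2
    have h4 : (qq t z (pW m) (e m)) ∘ (fun x : E3 => emb x) = P t (fun x => pW m (emb x)) := by
      ext x'
      exact (hPm m).qq_slice ht x'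
    rw [h4] at h3
    refine h3.congr_fderiv ?_
    ext w
    rw [ContinuousLinearMap.comp_apply, innerSL_apply_apply, innerSL_apply_apply, embL_apply,
      inner_neg_left, sum_inner, sum_inner, ← Finset.sum_neg_distrib]
    refine Finset.sum_congr rfl fun i _ => ?_
    rw [inner_smul_left, inner_smul_left, conj_trivial, conj_trivial, emb_sub, inner_emb]
    ring
  · have hkey : ∀ i j, ∑ m ∈ Finset.range n, ∫ X, e (m + 1) i X * a0 h (X - emb (Q j)) =
        ∑ m ∈ Finset.range n, ∫ X, (Γ2 ((Ua Γ Γ1 h z Q m).1 X) *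
          qq h z (pW (m + 1)) (e (m + 1)) X) *
          ((Ua Γ Γ1 h z Q m).2 i X * (Ua Γ Γ1 h z Q m).2 j X) := by
      intro i j
      set T : ℕ → ℝ := fun m => ∫ X, e m i X * (Ua Γ Γ1 h z Q m).2 j X with hT
      have hTm : ∀ m ∈ Finset.range n, ∫ X, e (m + 1) i X * a0 h (X - emb (Q j)) =
          (∫ X, (Γ2 ((Ua Γ Γ1 h z Q m).1 X) * qq h z (pW (m + 1)) (e (m + 1)) X) *
          ((Ua Γ Γ1 h z Q m).2 i X * (Ua Γ Γ1 h z Q m).2 j X)) + (T (m + 1) - T m) := by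
        intro m hm
        have hm' := Finset.mem_range.1 hm
        obtain ⟨C2, hC2⟩ := hG.b2
        obtain ⟨Cq, hCq⟩ := (hPm (m + 1)).qq_bdd hh
        have hUc := (hU m).cen.cont
        have hS1c : Continuous fun X => 1 - Γ1 ((Ua Γ Γ1 h z Q m).1 X) :=
          continuous_const.sub (hG.contΓ1.comp hUc)
        have hqc : Continuous (qq h z (pW (m + 1)) (e (m + 1))) := ((hPm (m + 1)).qq_cen hh).cont
        have hrc : Continuous fun X => Γ2 ((Ua Γ Γ1 h z Q m).1 X) *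
          qq h z (pW (m + 1)) (e (m + 1)) X := (hG.c2.comp hUc).mul hqc
        have hrb : ∃ C, ∀ X, |Γ2 ((Ua Γ Γ1 h z Q m).1 X) *
          qq h z (pW (m + 1)) (e (m + 1)) X| ≤ C := by
          refine ⟨C2 * Cq, fun X => ?_⟩
          rw [abs_mul, abs_of_nonneg (hG.n2 _)]
          exact mul_le_mul (hC2 _) (hCq X) (abs_nonneg _) ((hG.n2 ((Ua Γ Γ1 h z Q m).1 X)).trans (hC2 _))
        have hds := dual_step hh hS1c ⟨1, fun X => hG.abs_S1_le _⟩ hrc hrb
          ((hPm (m + 1)).nice i) ((hU m).nice i) ((hU m).nice j) (nice_a0_sub hh (emb (Q j)))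
        have hT0 : T m = ∫ X, ((1 - Γ1 ((Ua Γ Γ1 h z Q m).1 X)) * P h (e (m + 1) i) X +
            (Γ2 ((Ua Γ Γ1 h z Q m).1 X) * qq h z (pW (m + 1)) (e (m + 1)) X) *
            (Ua Γ Γ1 h z Q m).2 i X) * (Ua Γ Γ1 h z Q m).2 j X := by
          simp only [hT]
          rw [(hstep m hm').2]
        have hT1 : T (m + 1) = ∫ X, e (m + 1) i X *
            (P h (fun Y => (1 - Γ1 ((Ua Γ Γ1 h z Q m).1 Y)) * (Ua Γ Γ1 h z Q m).2 j Y) X +
              a0 h (X - emb (Q j))) := rfl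
        rw [hT0, hT1, hds]
        ring
      rw [Finset.sum_congr rfl hTm, Finset.sum_add_distrib, Finset.sum_range_sub]
      have hTn : T n = 0 := by
        simp only [hT, he, Nat.sub_self, pe, zero_mul, integral_zero]
      have hTz : T 0 = 0 := by
        simp only [hT, Ua, mul_zero, integral_zero]
      rw [hTn, hTz]
      ring
    intro i j
    rw [hkey i j, hkey j i]
    refine Finset.sum_congr rfl fun m _ => ?_
    congr 1; ext X; ring

end Pool.Agent.H29.TF
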