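import Pool.Agent.H29.TF.Slice

/-!
# Definitions shared by the sub-parts of PART I
-/

open MeasureTheory Real Set

namespace Pool.Agent.H29.TF
variable {k : ℕ}

/-- force kernel on `W = E3 × ℂ` (dimension 5): `a0 h = 8π² ∫_h^{2h} hk t dt` -/
noncomputable def a0 (h : ℝ) (X : W) : ℝ := 8 * π ^ 2 * ∫ t in Ioc h (2 * h), hk t X

/-- C² nonlinearity -/
structure GC2 (Γ Γ1 Γ2 : ℝ → ℝ) (μ : ℝ) : Prop where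
  d1 : ∀ u, HasDerivAt Γ (Γ1 u) u
  d2 : ∀ u, HasDerivAt Γ1 (Γ2 u) u
  c2 : Continuous Γ2
  n1 : ∀ u, 0 ≤ Γ1 u
  l1 : ∀ u, Γ1 u ≤ 1
  n2 : ∀ u, 0 ≤ Γ2 u
  b2 : ∃ C, ∀ u, Γ2 u ≤ C
  z0 : ∀ u ≤ μ, Γ u = 0

/-- the backward (adjoint) data: `p m` is the adjoint state on `E3`, `e m i` the coefficients (in
dimension 5) of its gradient. -/
structure CoreData (Γ Γ1 : ℝ → ℝ) (h : ℝ) (z : Fin k → ℝ) (Q : Fin k → E3) (n : ℕ)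
    (p : ℕ → E3 → ℝ) (e : ℕ → Fin k → W → ℝ) : Prop where
  cont : ∀ m ≤ n, Continuous (p m)
  nonneg : ∀ m ≤ n, ∀ x, 0 ≤ p m x
  le_one : ∀ m ≤ n, ∀ x, p m x ≤ 1
  last : ∀ x, p n x = 1
  step : ∀ m < n, ∀ x, p m x = (1 - Γ1 (uIt Γ h z Q m x)) * P h (p (m + 1)) x
  e_nice : ∀ m ≤ n, ∀ i, Nice (e m i)
  e_nonneg : ∀ m ≤ n, ∀ i X, 0 ≤ e m i X
  grad : ∀ m ≤ n, ∀ t : ℝ, 0 < t → ∀ x, HasFDerivAt (𝕜 := ℝ) (P t (p m))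
    (innerSL ℝ (∑ i, (z i * P t (e m i) (emb x)) • (x - Q i)) : E3 →L[ℝ] ℝ) x
  symm : ∀ i j, ∑ m ∈ Finset.range n, ∫ X, e (m + 1) i X * a0 h (X - emb (Q j)) =
    ∑ m ∈ Finset.range n, ∫ X, e (m + 1) j X * a0 h (X - emb (Q i))

end Pool.Agent.H29.TF
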