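import Pool.Agent.H29.TF.Heat

/-!
# Differentiability of the heat semigroup
-/

open MeasureTheory Real Set Topology

namespace Pool.Agent.H29.TF

variable {V : Type*} [NormedAddCommGroup V] [InnerProductSpace ℝ V]

theorem hasFDerivAt_hk {t : ℝ} (ht : 0 < t) (x : V) :
    HasFDerivAt (𝕜 := ℝ) (fun x : V => hk t x)
      ((-(1 / (2 * t)) * hk t x) • (innerSL ℝ x : V →L[ℝ] ℝ)) x := by
  have h1 : HasFDerivAt (𝕜 := ℝ) (fun x : V => ‖x‖ ^ 2) ((2 : ℝ) • (innerSL ℝ x : V →L[ℝ] ℝ)) x := by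
    have := (hasStrictFDerivAt_norm_sq x).hasFDerivAt
    refine this.congr_fderiv ?_
    rw [two_smul, two_smul]
  have h2 : HasFDerivAt (𝕜 := ℝ) (fun x : V => -(1 / (4 * t)) * ‖x‖ ^ 2)
      (-(1 / (4 * t)) • ((2 : ℝ) • (innerSL ℝ x : V →L[ℝ] ℝ))) x := h1.const_mul _
  have h3 := (h2.exp).const_mul ((4 * π * t) ^ (-(Module.finrank ℝ V : ℝ) / 2))
  have e : (fun x : V => hk t x) = fun x : V => (4 * π * t) ^ (-(Module.finrank ℝ V : ℝ) / 2) *
      Real.exp (-(1 / (4 * t)) * ‖x‖ ^ 2) := by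
    ext y; unfold hk; congr 2; field_simp
  rw [e]
  refine h3.congr_fderiv ?_
  have e2 : hk t x = (4 * π * t) ^ (-(Module.finrank ℝ V : ℝ) / 2) *
      Real.exp (-(1 / (4 * t)) * ‖x‖ ^ 2) := congrFun e x
  rw [e2, smul_smul, smul_smul, smul_smul]
  congr 1
  field_simp
  ring

/-- `r · hk t ≤ (1+8t) 2^{d/2} hk (2t)` -/
theorem norm_mul_hk_le {t : ℝ} (ht : 0 < t) (x : V) :
    (1 + ‖x‖) * hk t x ≤ (2 * (1 + 4 * t) * 2 ^ ((Module.finrank ℝ V : ℝ) / 2)) * hk (2 * t) x := by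
  have hx : (1 + ‖x‖) ≤ 2 * (1 + 4 * t) * Real.exp (‖x‖ ^ 2 / (8 * t)) := by
    have h1 : ‖x‖ ≤ (1 + ‖x‖ ^ 2) / 2 := by nlinarith [sq_nonneg (‖x‖ - 1)]
    have h2 : ‖x‖ ^ 2 / (8 * t) ≤ Real.exp (‖x‖ ^ 2 / (8 * t)) :=
      (Real.add_one_le_exp _).trans' (by linarith)
    have h3 : ‖x‖ ^ 2 ≤ 8 * t * Real.exp (‖x‖ ^ 2 / (8 * t)) := by
      rw [div_le_iff₀ (by positivity)] at h2; linarith
    have h4 : 1 ≤ Real.exp (‖x‖ ^ 2 / (8 * t)) := Real.one_le_exp (by positivity)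
    nlinarith
  unfold hk
  have e1 : Real.exp (-‖x‖ ^ 2 / (4 * t)) =
      Real.exp (-(‖x‖ ^ 2 / (8 * t))) * Real.exp (-‖x‖ ^ 2 / (4 * (2 * t))) := by
    rw [← Real.exp_add]; congr 1; field_simp; ring
  have e2 : (4 * π * (2 * t)) ^ (-(Module.finrank ℝ V : ℝ) / 2) =
      (2 : ℝ) ^ (-((Module.finrank ℝ V : ℝ) / 2)) * (4 * π * t) ^ (-(Module.finrank ℝ V : ℝ) / 2) := by
    rw [← neg_div, ← Real.mul_rpow (by positivity) (by positivity)]; congr 1; ring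
  have e3 : (2 : ℝ) ^ ((Module.finrank ℝ V : ℝ) / 2) * (2 : ℝ) ^ (-((Module.finrank ℝ V : ℝ) / 2)) = 1 := by
    rw [← Real.rpow_add (by norm_num)]; simp
  have e4 : Real.exp (‖x‖ ^ 2 / (8 * t)) * Real.exp (-(‖x‖ ^ 2 / (8 * t))) = 1 := by
    rw [← Real.exp_add]; simp
  rw [e1, e2]
  calc (1 + ‖x‖) * ((4 * π * t) ^ (-(Module.finrank ℝ V : ℝ) / 2) *
        (Real.exp (-(‖x‖ ^ 2 / (8 * t))) * Real.exp (-‖x‖ ^ 2 / (4 * (2 * t)))))
      ≤ (2 * (1 + 4 * t) * Real.exp (‖x‖ ^ 2 / (8 * t))) * ((4 * π * t) ^ (-(Module.finrank ℝ V : ℝ) / 2) *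
        (Real.exp (-(‖x‖ ^ 2 / (8 * t))) * Real.exp (-‖x‖ ^ 2 / (4 * (2 * t))))) :=
        mul_le_mul_of_nonneg_right hx (by positivity)
    _ = (2 * (1 + 4 * t)) * (Real.exp (‖x‖ ^ 2 / (8 * t)) * Real.exp (-(‖x‖ ^ 2 / (8 * t)))) *
        ((4 * π * t) ^ (-(Module.finrank ℝ V : ℝ) / 2) * Real.exp (-‖x‖ ^ 2 / (4 * (2 * t)))) := by ring
    _ = (2 * (1 + 4 * t)) * ((2 : ℝ) ^ ((Module.finrank ℝ V : ℝ) / 2) * (2 : ℝ) ^ (-((Module.finrank ℝ V : ℝ) / 2))) *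
        ((4 * π * t) ^ (-(Module.finrank ℝ V : ℝ) / 2) * Real.exp (-‖x‖ ^ 2 / (4 * (2 * t)))) := by
        rw [e3, e4]
    _ = _ := by ring

/-- comparison of nearby points -/
theorem hk_near {t : ℝ} (ht : 0 < t) {x y : V} (hxy : ‖x - y‖ ≤ 1) :
    hk t x ≤ (2 ^ ((Module.finrank ℝ V : ℝ) / 2) * Real.exp (1 / (4 * t))) * hk (2 * t) y := by
  have hsq : ‖y‖ ^ 2 / 2 - 1 ≤ ‖x‖ ^ 2 := by
    have : ‖y‖ ≤ ‖x‖ + 1 := by
      calc ‖y‖ = ‖x - (x - y)‖ := by congr 1; abel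
        _ ≤ ‖x‖ + ‖x - y‖ := norm_sub_le _ _
        _ ≤ ‖x‖ + 1 := by linarith
    nlinarith [norm_nonneg x, norm_nonneg y, sq_nonneg (‖x‖ - 1)]
  unfold hk
  have e2 : (4 * π * (2 * t)) ^ (-(Module.finrank ℝ V : ℝ) / 2) =
      (2 : ℝ) ^ (-((Module.finrank ℝ V : ℝ) / 2)) * (4 * π * t) ^ (-(Module.finrank ℝ V : ℝ) / 2) := by
    rw [← neg_div, ← Real.mul_rpow (by positivity) (by positivity)]; congr 1; ring
  have e3 : (2 : ℝ) ^ ((Module.finrank ℝ V : ℝ) / 2) * (2 : ℝ) ^ (-((Module.finrank ℝ V : ℝ) / 2)) = 1 := by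
    rw [← Real.rpow_add (by norm_num)]; simp
  have e5 : Real.exp (-‖x‖ ^ 2 / (4 * t)) ≤ Real.exp (1 / (4 * t)) * Real.exp (-‖y‖ ^ 2 / (4 * (2 * t))) := by
    rw [← Real.exp_add]
    apply Real.exp_le_exp.2
    have : 1 / (4 * t) + -‖y‖ ^ 2 / (4 * (2 * t)) - (-‖x‖ ^ 2 / (4 * t)) =
        (‖x‖ ^ 2 - (‖y‖ ^ 2 / 2 - 1)) / (4 * t) := by field_simp; ring
    have h2 : 0 ≤ (‖x‖ ^ 2 - (‖y‖ ^ 2 / 2 - 1)) / (4 * t) := div_nonneg (by linarith) (by positivity)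
    linarith
  rw [e2]
  calc _ ≤ (4 * π * t) ^ (-(Module.finrank ℝ V : ℝ) / 2) *
        (Real.exp (1 / (4 * t)) * Real.exp (-‖y‖ ^ 2 / (4 * (2 * t)))) :=
        mul_le_mul_of_nonneg_left e5 (by positivity)
    _ = ((2 : ℝ) ^ ((Module.finrank ℝ V : ℝ) / 2) * (2 : ℝ) ^ (-((Module.finrank ℝ V : ℝ) / 2))) *
      ((4 * π * t) ^ (-(Module.finrank ℝ V : ℝ) / 2) *
        (Real.exp (1 / (4 * t)) * Real.exp (-‖y‖ ^ 2 / (4 * (2 * t))))) := by rw [e3, one_mul]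
    _ = _ := by ring

variable [MeasurableSpace V] [BorelSpace V] [FiniteDimensional ℝ V]

theorem integrable_one_add_norm_mul_hk {t : ℝ} (ht : 0 < t) :
    Integrable (fun x : V => (1 + ‖x‖) * hk t x) := by
  refine Integrable.mono' ((integrable_hk (by positivity : 0 < 2 * t)).const_mul
    (2 * (1 + 4 * t) * 2 ^ ((Module.finrank ℝ V : ℝ) / 2)))
    (Continuous.aestronglyMeasurable (by fun_prop)) (Filter.Eventually.of_forall fun x => ?_)
  rw [Real.norm_of_nonneg (mul_nonneg (by positivity) (hk_nonneg ht.le _))]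
  exact norm_mul_hk_le ht x

theorem integral_one_add_norm_mul_hk_le {t : ℝ} (ht : 0 < t) :
    ∫ x : V, (1 + ‖x‖) * hk t x ≤ 2 * (1 + 4 * t) * 2 ^ ((Module.finrank ℝ V : ℝ) / 2) := by
  calc ∫ x : V, (1 + ‖x‖) * hk t x ≤ ∫ x : V, (2 * (1 + 4 * t) * 2 ^ ((Module.finrank ℝ V : ℝ) / 2)) * hk (2 * t) x :=
        integral_mono (integrable_one_add_norm_mul_hk ht)
          ((integrable_hk (by positivity : 0 < 2 * t)).const_mul _) fun x => norm_mul_hk_le ht x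
    _ = _ := by rw [integral_const_mul, integral_hk (by positivity), mul_one]

/-- [G1] gradient of `P t f` for bounded `f` -/
theorem hasFDerivAt_P {t : ℝ} (ht : 0 < t) {f : V → ℝ} (hf : AEStronglyMeasurable f volume)
    {C : ℝ} (hC : ∀ x, |f x| ≤ C) (x : V) :
    HasFDerivAt (𝕜 := ℝ) (P t f)
      (∫ y, (-(1 / (2 * t)) * (hk t (x - y) * f y)) • (innerSL ℝ (x - y) : V →L[ℝ] ℝ)) x := by
  have hC0 : 0 ≤ C := (abs_nonneg _).trans (hC 0)
  set A : ℝ := 2 * (1 + 4 * t) * 2 ^ ((Module.finrank ℝ V : ℝ) / 2) with hA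
  set B : ℝ := 2 ^ ((Module.finrank ℝ V : ℝ) / 2) * Real.exp (1 / (4 * (2 * t))) with hB
  refine hasFDerivAt_integral_of_dominated_of_fderiv_le (𝕜 := ℝ) (s := Metric.ball x 1)
    (F := fun (x : V) (y : V) => hk t (x - y) * f y)
    (F' := fun (x : V) (y : V) =>
      (-(1 / (2 * t)) * (hk t (x - y) * f y)) • (innerSL ℝ (x - y) : V →L[ℝ] ℝ))
    (bound := fun y : V => (1 / (2 * t)) * C * (A * (B * hk (2 * (2 * t)) (x - y))))
    (Metric.ball_mem_nhds x one_pos) ?_ ?_ ?_ ?_ ?_ ?_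
  · exact Filter.Eventually.of_forall fun x' =>
      (integrable_hk_mul ht hf hC x').aestronglyMeasurable
  · exact integrable_hk_mul ht hf hC x
  · exact ((integrable_hk_mul ht hf hC x).aestronglyMeasurable.const_mul (-(1 / (2 * t)))).smul
      (Continuous.aestronglyMeasurable
        (f := fun y : V => (innerSL ℝ (x - y) : V →L[ℝ] ℝ)) (by fun_prop))
  · refine Filter.Eventually.of_forall fun y x' hx' => ?_
    rw [norm_smul, innerSL_apply_norm, norm_mul, norm_neg, norm_mul,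
      Real.norm_of_nonneg (by positivity : 0 ≤ 1 / (2 * t)), Real.norm_of_nonneg (hk_nonneg ht.le _),
      Real.norm_eq_abs]
    have h1 := norm_mul_hk_le ht (x' - y)
    have h2 := hk_near (t := 2 * t) (by positivity) (x := x' - y) (y := x - y) (by
      rw [sub_sub_sub_cancel_right]
      exact (mem_ball_iff_norm.1 hx').le)
    have h3 : ‖x' - y‖ * hk t (x' - y) ≤ (1 + ‖x' - y‖) * hk t (x' - y) :=
      mul_le_mul_of_nonneg_right (by linarith) (hk_nonneg ht.le _)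
    calc 1 / (2 * t) * (hk t (x' - y) * |f y|) * ‖x' - y‖
        = 1 / (2 * t) * |f y| * (‖x' - y‖ * hk t (x' - y)) := by ring
      _ ≤ 1 / (2 * t) * C * (A * (B * hk (2 * (2 * t)) (x - y))) := by
          apply mul_le_mul (mul_le_mul_of_nonneg_left (hC y) (by positivity)) _
            (mul_nonneg (norm_nonneg _) (hk_nonneg ht.le _)) (by positivity)
          refine h3.trans (h1.trans (mul_le_mul_of_nonneg_left h2 (by positivity)))
  · exact (((integrable_hk_sub (by positivity) x).const_mul _).const_mul _).const_mul _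
  · refine Filter.Eventually.of_forall fun y x' _ => ?_
    have h1 := (hasFDerivAt_hk ht (x' - y)).comp x' (hasFDerivAt_sub_const (𝕜 := ℝ) y)
    have h2 := h1.mul_const (f y)
    refine HasFDerivAt.congr_fderiv h2 ?_
    rw [ContinuousLinearMap.comp_id, smul_smul]
    congr 1
    ring

/-- [G2] gradient of `P t f` for `C¹` functions `f` with bounded gradient `g` -/
theorem hasFDerivAt_P_of_grad {t : ℝ} (ht : 0 < t) {f : V → ℝ} {C : ℝ} (hC : ∀ x, |f x| ≤ C) {g : V → V} (hg : AEStronglyMeasurable g volume)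
    {D : ℝ} (hD : ∀ x, ‖g x‖ ≤ D) (hd : ∀ x, HasFDerivAt (𝕜 := ℝ) f (innerSL ℝ (g x) : V →L[ℝ] ℝ) x) (x : V) :
    HasFDerivAt (𝕜 := ℝ) (P t f) (∫ y, hk t (x - y) • (innerSL ℝ (g y) : V →L[ℝ] ℝ)) x := by
  have e1 : P t f = fun x => ∫ y, hk t y * f (x - y) := by
    ext x; exact P_eq_conv t f x
  have hcont : Continuous f := continuous_iff_continuousAt.2 fun x => (hd x).continuousAt
  have e2 : (∫ y, hk t (x - y) • (innerSL ℝ (g y) : V →L[ℝ] ℝ)) =
      ∫ y, hk t y • (innerSL ℝ (g (x - y)) : V →L[ℝ] ℝ) := by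
    rw [← integral_sub_left_eq_self
      (fun y : V => hk t y • (innerSL ℝ (g (x - y)) : V →L[ℝ] ℝ)) volume x]
    simp
  rw [e1, e2]
  have hgm : AEStronglyMeasurable (fun y => g (x - y)) volume :=
    hg.comp_quasiMeasurePreserving
      (quasiMeasurePreserving_sub_left_of_right_invariant volume x)
  refine hasFDerivAt_integral_of_dominated_of_fderiv_le (𝕜 := ℝ) (s := univ)
    (F := fun (x : V) (y : V) => hk t y * f (x - y))
    (F' := fun (x : V) (y : V) => hk t y • (innerSL ℝ (g (x - y)) : V →L[ℝ] ℝ))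
    (bound := fun y : V => hk t y * D) Filter.univ_mem ?_ ?_ ?_ ?_ ?_ ?_
  · exact Filter.Eventually.of_forall fun x' => Continuous.aestronglyMeasurable (by fun_prop)
  · refine (integrable_hk ht).mul_bdd (c := C) (Continuous.aestronglyMeasurable (by fun_prop)) ?_
    exact Filter.Eventually.of_forall fun y => hC _
  · exact (Continuous.aestronglyMeasurable (f := fun y : V => hk t y) (by fun_prop)).smul
      ((innerSL ℝ : V →L⋆[ℝ] V →L[ℝ] ℝ).continuous.comp_aestronglyMeasurable hgm)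
  · refine Filter.Eventually.of_forall fun y x' _ => ?_
    rw [norm_smul, innerSL_apply_norm, Real.norm_of_nonneg (hk_nonneg ht.le _)]
    exact mul_le_mul_of_nonneg_left (hD _) (hk_nonneg ht.le _)
  · exact (integrable_hk ht).mul_const D
  · refine Filter.Eventually.of_forall fun y x' _ => ?_
    have h1 := (hd (x' - y)).comp x' (hasFDerivAt_sub_const (𝕜 := ℝ) y)
    have h2 := h1.const_mul (hk t y)
    rw [ContinuousLinearMap.comp_id] at h2
    exact h2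

theorem continuous_P {t : ℝ} (ht : 0 < t) {f : V → ℝ} (hf : AEStronglyMeasurable f volume)
    {C : ℝ} (hC : ∀ x, |f x| ≤ C) : Continuous (P t f) :=
  continuous_iff_continuousAt.2 fun x => (hasFDerivAt_P ht hf hC x).continuousAt

end Pool.Agent.H29.TF
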