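import Pool.Agent.H29.TF.CoreDefs

/-!
# The source kernel lifted to dimension 5
-/

open MeasureTheory Real Set Topology

namespace Pool.Agent.H29.TF

section
variable {V : Type*} [NormedAddCommGroup V] [InnerProductSpace ℝ V]

theorem hk_le_two {h t : ℝ} (hh : 0 < h) (h1 : h ≤ t) (h2 : t ≤ 2 * h) (x : V) :
    hk t x ≤ 2 ^ ((Module.finrank ℝ V : ℝ) / 2) * hk (2 * h) x := by
  have ht : 0 < t := lt_of_lt_of_le hh h1
  unfold hk
  have e1 : (4 * π * t) ^ (-(Module.finrank ℝ V : ℝ) / 2) ≤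
      2 ^ ((Module.finrank ℝ V : ℝ) / 2) * (4 * π * (2 * h)) ^ (-(Module.finrank ℝ V : ℝ) / 2) := by
    have e2 : (4 * π * (2 * h)) ^ (-(Module.finrank ℝ V : ℝ) / 2) =
        2 ^ (-(Module.finrank ℝ V : ℝ) / 2) * (4 * π * h) ^ (-(Module.finrank ℝ V : ℝ) / 2) := by
      rw [← Real.mul_rpow (by norm_num) (by positivity)]; congr 1; ring
    rw [e2, ← mul_assoc, ← Real.rpow_add (by norm_num)]
    have e3 : (Module.finrank ℝ V : ℝ) / 2 + -(Module.finrank ℝ V : ℝ) / 2 = 0 := by ring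
    rw [e3, Real.rpow_zero, one_mul]
    apply Real.rpow_le_rpow_of_nonpos (by positivity)
    · nlinarith [Real.pi_pos]
    · have : (0 : ℝ) ≤ (Module.finrank ℝ V : ℝ) := Nat.cast_nonneg _
      linarith
  have e4 : Real.exp (-‖x‖ ^ 2 / (4 * t)) ≤ Real.exp (-‖x‖ ^ 2 / (4 * (2 * h))) := by
    apply Real.exp_le_exp.2
    rw [neg_div, neg_div, neg_le_neg_iff]
    apply div_le_div_of_nonneg_left (sq_nonneg _) (by positivity)
    linarith
  calc (4 * π * t) ^ (-(Module.finrank ℝ V : ℝ) / 2) * Real.exp (-‖x‖ ^ 2 / (4 * t))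
      ≤ (2 ^ ((Module.finrank ℝ V : ℝ) / 2) * (4 * π * (2 * h)) ^ (-(Module.finrank ℝ V : ℝ) / 2)) *
        Real.exp (-‖x‖ ^ 2 / (4 * (2 * h))) :=
        mul_le_mul e1 e4 (Real.exp_pos _).le (by positivity)
    _ = _ := by ring

theorem measurable_hk_time (x : V) : Measurable (fun t : ℝ => hk t x) := by
  unfold hk
  apply Measurable.mul
  · exact Measurable.pow_const (by fun_prop) _
  · fun_prop

/-- uniform bound for `(1+‖x‖) hk t x` on `t ∈ [h,2h]` -/
theorem exists_bound_norm_mul_hk {h : ℝ} (hh : 0 < h) :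
    ∃ C, 0 ≤ C ∧ ∀ t, h ≤ t → t ≤ 2 * h → ∀ x : V, (1 + ‖x‖) * hk t x ≤ C * hk (4 * h) x := by
  refine ⟨2 ^ ((Module.finrank ℝ V : ℝ) / 2) * (2 * (1 + 4 * (2 * h)) *
    2 ^ ((Module.finrank ℝ V : ℝ) / 2)), by positivity, fun t h1 h2 x => ?_⟩
  have e1 := hk_le_two hh h1 h2 x
  have e2 := norm_mul_hk_le (by positivity : 0 < 2 * h) x
  calc (1 + ‖x‖) * hk t x ≤ (1 + ‖x‖) * (2 ^ ((Module.finrank ℝ V : ℝ) / 2) * hk (2 * h) x) :=
        mul_le_mul_of_nonneg_left e1 (by positivity)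
    _ = 2 ^ ((Module.finrank ℝ V : ℝ) / 2) * ((1 + ‖x‖) * hk (2 * h) x) := by ring
    _ ≤ 2 ^ ((Module.finrank ℝ V : ℝ) / 2) * ((2 * (1 + 4 * (2 * h)) *
        2 ^ ((Module.finrank ℝ V : ℝ) / 2)) * hk (2 * (2 * h)) x) :=
        mul_le_mul_of_nonneg_left e2 (by positivity)
    _ = _ := by rw [show (4 : ℝ) * h = 2 * (2 * h) by ring]; ring

end

theorem exists_bound_hk_W {h : ℝ} (hh : 0 < h) :
    ∃ C, 0 ≤ C ∧ ∀ t ∈ Ioc h (2 * h), ∀ x : W, (1 + ‖x‖) * hk t x ≤ C * hk (4 * h) x := by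
  obtain ⟨C, h0, hC⟩ := exists_bound_norm_mul_hk (V := W) hh
  exact ⟨C, h0, fun t ht x => hC t ht.1.le ht.2 x⟩

theorem integrableOn_hk_time {h : ℝ} (hh : 0 < h) (x : W) :
    IntegrableOn (fun t : ℝ => hk t x) (Ioc h (2 * h)) := by
  obtain ⟨C, h0, hC⟩ := exists_bound_hk_W hh
  have : IntegrableOn (fun _ : ℝ => C * hk (4 * h) x) (Ioc h (2 * h)) := by
    exact integrableOn_const (by simp)
  refine Integrable.mono' this (measurable_hk_time x).aestronglyMeasurable ?_
  rw [ae_restrict_iff' measurableSet_Ioc]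
  refine Filter.Eventually.of_forall fun t ht => ?_
  rw [Real.norm_of_nonneg (hk_nonneg (hh.trans ht.1).le _)]
  refine le_trans ?_ (hC t ht x)
  have := hk_nonneg (hh.trans ht.1).le x
  nlinarith [norm_nonneg x]

theorem a0_nonneg {h : ℝ} (hh : 0 < h) (x : W) : 0 ≤ a0 h x := by
  unfold a0
  refine mul_nonneg (by positivity) (setIntegral_nonneg measurableSet_Ioc fun t ht => ?_)
  exact hk_nonneg (hh.trans ht.1).le _

theorem a0_neg (h : ℝ) (x : W) : a0 h (-x) = a0 h x := by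
  unfold a0
  simp_rw [hk_neg]

theorem a0_le {h : ℝ} (hh : 0 < h) : ∃ C, 0 ≤ C ∧ ∀ x : W, (1 + ‖x‖) * a0 h x ≤ C * hk (4 * h) x := by
  obtain ⟨C, h0, hC⟩ := exists_bound_hk_W hh
  refine ⟨8 * π ^ 2 * (h * C), by positivity, fun x => ?_⟩
  unfold a0
  have e : (1 + ‖x‖) * (8 * π ^ 2 * ∫ t in Ioc h (2 * h), hk t x) =
      8 * π ^ 2 * ∫ t in Ioc h (2 * h), (1 + ‖x‖) * hk t x := by
    rw [integral_const_mul]; ring
  rw [e, mul_assoc (8 * π ^ 2)]
  apply mul_le_mul_of_nonneg_left _ (by positivity)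
  have : ∫ t in Ioc h (2 * h), (1 + ‖x‖) * hk t x ≤ ∫ t in Ioc h (2 * h), C * hk (4 * h) x := by
    apply setIntegral_mono_on _ _ measurableSet_Ioc (fun t ht => hC t ht x)
    · exact (integrableOn_hk_time hh x).const_mul _
    · exact integrableOn_const (by simp)
  refine this.trans (le_of_eq ?_)
  rw [setIntegral_const, Real.volume_real_Ioc_of_le (by linarith), smul_eq_mul]
  ring

theorem continuous_a0 {h : ℝ} (hh : 0 < h) : Continuous (a0 h) := by
  unfold a0
  refine continuous_const.mul ?_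
  obtain ⟨C, h0, hC⟩ := exists_bound_hk_W hh
  refine continuous_of_dominated (bound := fun _ => C * hk (4 * h) (0 : W)) ?_ ?_ ?_ ?_
  · intro x; exact (measurable_hk_time x).aestronglyMeasurable
  · intro x
    rw [ae_restrict_iff' measurableSet_Ioc]
    refine Filter.Eventually.of_forall fun t ht => ?_
    rw [Real.norm_of_nonneg (hk_nonneg (hh.trans ht.1).le _)]
    have h1 := hC t ht x
    have h2 := hk_nonneg (hh.trans ht.1).le x
    have h3 := hk_le (by positivity : 0 < 4 * h) x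
    have h4 : C * hk (4 * h) x ≤ C * hk (4 * h) (0 : W) := mul_le_mul_of_nonneg_left h3 h0
    nlinarith [norm_nonneg x]
  · exact integrableOn_const (by simp)
  · exact Filter.Eventually.of_forall fun t => continuous_hk t

theorem nice_a0_sub {h : ℝ} (hh : 0 < h) (Y : W) : Nice (fun X => a0 h (X - Y)) := by
  obtain ⟨C, h0, hC⟩ := a0_le hh
  have hint : Integrable (a0 h) := by
    refine Integrable.mono' ((integrable_hk (by positivity : 0 < 4 * h)).const_mul C)
      (continuous_a0 hh).aestronglyMeasurable (Filter.Eventually.of_forall fun x => ?_)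
    rw [Real.norm_of_nonneg (a0_nonneg hh x)]
    refine le_trans ?_ (hC x)
    nlinarith [norm_nonneg x, a0_nonneg hh x]
  refine ⟨(continuous_a0 hh).comp (continuous_id.sub continuous_const), hint.comp_sub_right Y,
    (1 + ‖Y‖) * (C * hk (4 * h) (0 : W)), fun X => ?_⟩
  rw [abs_of_nonneg (a0_nonneg hh _)]
  have h3 : 1 + ‖X‖ ≤ (1 + ‖Y‖) * (1 + ‖X - Y‖) := by
    have : ‖X‖ ≤ ‖X - Y‖ + ‖Y‖ := by
      calc ‖X‖ = ‖(X - Y) + Y‖ := by congr 1; abel
        _ ≤ _ := norm_add_le _ _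
    nlinarith [norm_nonneg (X - Y), norm_nonneg Y]
  calc (1 + ‖X‖) * a0 h (X - Y) ≤ ((1 + ‖Y‖) * (1 + ‖X - Y‖)) * a0 h (X - Y) :=
        mul_le_mul_of_nonneg_right h3 (a0_nonneg hh _)
    _ = (1 + ‖Y‖) * ((1 + ‖X - Y‖) * a0 h (X - Y)) := by ring
    _ ≤ (1 + ‖Y‖) * (C * hk (4 * h) (0 : W)) := by
        apply mul_le_mul_of_nonneg_left _ (by positivity)
        exact (hC _).trans (mul_le_mul_of_nonneg_left (hk_le (by positivity) _) h0)

/-- source kernel lifted to dimension 5 -/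
noncomputable def khat (h : ℝ) (X : W) : ℝ := 4 * π * ∫ t in Ioc h (2 * h), (4 * π * t) * hk t X

theorem khat_emb {h : ℝ} (hh : 0 < h) (x : E3) : khat h (emb x) = kap h x := by
  unfold khat kap
  congr 1
  apply setIntegral_congr_fun measurableSet_Ioc
  intro t ht
  have ht0 : 0 < t := hh.trans ht.1
  simp only
  unfold emb
  rw [hk_W ht0, hk_complex]
  simp only [norm_zero]
  have : -(0:ℝ) ^ 2 / (4 * t) = 0 := by simp
  rw [this, Real.exp_zero]
  field_simp

theorem emb_sub (x y : E3) : emb x - emb y = emb (x - y) := by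
  unfold emb
  rw [← WithLp.toLp_sub, Prod.mk_sub_mk, sub_zero]

theorem hasFDerivAt_khat {h : ℝ} (hh : 0 < h) (X : W) :
    HasFDerivAt (𝕜 := ℝ) (khat h) (innerSL ℝ (-(a0 h X) • X) : W →L[ℝ] ℝ) X := by
  obtain ⟨C, h0, hC⟩ := exists_bound_hk_W hh
  have hd : ∀ t ∈ Ioc h (2 * h), ∀ x : W, HasFDerivAt (𝕜 := ℝ) (fun x : W => (4 * π * t) * hk t x)
      ((-(2 * π) * hk t x) • (innerSL ℝ x : W →L[ℝ] ℝ)) x := by
    intro t ht x
    have ht0 : 0 < t := hh.trans ht.1
    have := (hasFDerivAt_hk (V := W) ht0 x).const_mul (4 * π * t)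
    refine this.congr_fderiv ?_
    rw [smul_smul]
    congr 1
    field_simp
    ring
  have hbd : ∀ t ∈ Ioc h (2 * h), ∀ x : W,
      ‖(-(2 * π) * hk t x) • (innerSL ℝ x : W →L[ℝ] ℝ)‖ ≤ 2 * π * (C * hk (4 * h) (0 : W)) := by
    intro t ht x
    rw [norm_smul, innerSL_apply_norm, norm_mul, norm_neg, Real.norm_of_nonneg (by positivity),
      Real.norm_of_nonneg (hk_nonneg (hh.trans ht.1).le _), mul_assoc]
    apply mul_le_mul_of_nonneg_left _ (by positivity)
    have h1 := hC t ht x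
    have h2 := hk_nonneg (hh.trans ht.1).le x
    have h3 := hk_le (by positivity : 0 < 4 * h) x
    have h4 : C * hk (4 * h) x ≤ C * hk (4 * h) (0 : W) := mul_le_mul_of_nonneg_left h3 h0
    nlinarith [norm_nonneg x]
  have hmeas : ∀ x : W, AEStronglyMeasurable (fun t : ℝ => (4 * π * t) * hk t x)
      (volume.restrict (Ioc h (2 * h))) := by
    intro x
    exact ((measurable_const.mul measurable_id).mul (measurable_hk_time x)).aestronglyMeasurable
  have key := hasFDerivAt_integral_of_dominated_of_fderiv_le (𝕜 := ℝ)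
    (μ := volume.restrict (Ioc h (2 * h))) (F := fun (x : W) (t : ℝ) => (4 * π * t) * hk t x)
    (F' := fun (x : W) (t : ℝ) => (-(2 * π) * hk t x) • (innerSL ℝ x : W →L[ℝ] ℝ))
    (x₀ := X) (s := Set.univ) (bound := fun _ => 2 * π * (C * hk (4 * h) (0 : W)))
    Filter.univ_mem (Filter.Eventually.of_forall hmeas) ?_ ?_ ?_ ?_ ?_
  · have h5 := key.const_mul (4 * π)
    refine h5.congr_fderiv ?_
    have h6 : ∫ t in Ioc h (2 * h), (-(2 * π) * hk t X) • (innerSL ℝ X : W →L[ℝ] ℝ) =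
        (∫ t in Ioc h (2 * h), (-(2 * π) * hk t X)) • (innerSL ℝ X : W →L[ℝ] ℝ) :=
      integral_smul_const _ _
    rw [h6, integral_const_mul, smul_smul]
    ext w
    rw [smul_apply, innerSL_apply_apply, innerSL_apply_apply, inner_smul_left, conj_trivial,
      smul_eq_mul]
    unfold a0
    ring
  · have : IntegrableOn (fun _ : ℝ => (4 * π * (2 * h)) * (C * hk (4 * h) X)) (Ioc h (2 * h)) :=
      integrableOn_const (by simp)
    refine Integrable.mono' this (hmeas X) ?_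
    rw [ae_restrict_iff' measurableSet_Ioc]
    refine Filter.Eventually.of_forall fun t ht => ?_
    have ht0 : 0 < t := hh.trans ht.1
    rw [Real.norm_of_nonneg (mul_nonneg (by positivity) (hk_nonneg ht0.le _))]
    have h1 := hC t ht X
    have h2 := hk_nonneg ht0.le X
    apply mul_le_mul _ _ h2 (by positivity)
    · have := ht.2
      have hp := Real.pi_pos
      nlinarith
    · nlinarith [norm_nonneg X]
  · exact ((measurable_const.mul (measurable_hk_time X)).aestronglyMeasurable).smul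
      aestronglyMeasurable_const
  · rw [ae_restrict_iff' measurableSet_Ioc]
    exact Filter.Eventually.of_forall fun t ht x _ => hbd t ht x
  · exact integrableOn_const (by simp)
  · rw [ae_restrict_iff' measurableSet_Ioc]
    exact Filter.Eventually.of_forall fun t ht x _ => hd t ht x

theorem khat_bdd {h : ℝ} (hh : 0 < h) : ∃ C, ∀ X, |khat h X| ≤ C := by
  obtain ⟨C, h0, hC⟩ := exists_bound_hk_W hh
  refine ⟨4 * π * ∫ t in Ioc h (2 * h), (4 * π * (2 * h)) * (C * hk (4 * h) (0 : W)), fun X => ?_⟩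
  unfold khat
  rw [abs_mul, abs_of_nonneg (by positivity : 0 ≤ 4 * π)]
  apply mul_le_mul_of_nonneg_left _ (by positivity)
  rw [← Real.norm_eq_abs]
  apply norm_integral_le_of_norm_le (integrableOn_const (by simp))
  rw [ae_restrict_iff' measurableSet_Ioc]
  refine Filter.Eventually.of_forall fun t ht => ?_
  have ht0 : 0 < t := hh.trans ht.1
  rw [Real.norm_of_nonneg (mul_nonneg (by positivity) (hk_nonneg ht0.le _))]
  have h1 := hC t ht X
  have h2 := hk_nonneg ht0.le X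
  have h3 := hk_le (by positivity : 0 < 4 * h) X
  have h4 : C * hk (4 * h) X ≤ C * hk (4 * h) (0 : W) := mul_le_mul_of_nonneg_left h3 h0
  apply mul_le_mul _ _ h2 (by positivity)
  · have := ht.2
    have hp := Real.pi_pos
    nlinarith
  · nlinarith [norm_nonneg X]

/-- total source on `W` -/
noncomputable def qhat {k : ℕ} (h : ℝ) (z : Fin k → ℝ) (Q : Fin k → E3) (X : W) : ℝ :=
  ∑ i, z i * khat h (X - emb (Q i))

variable {k : ℕ}

theorem qhat_emb {h : ℝ} (hh : 0 < h) (z : Fin k → ℝ) (Q : Fin k → E3) (x : E3) :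
    qhat h z Q (emb x) = ∑ i, z i * kap h (x - Q i) := by
  unfold qhat
  refine Finset.sum_congr rfl fun i _ => ?_
  rw [emb_sub, khat_emb hh]

theorem qhat_bdd {h : ℝ} (hh : 0 < h) (z : Fin k → ℝ) (Q : Fin k → E3) :
    ∃ C, ∀ X, |qhat h z Q X| ≤ C := by
  obtain ⟨C, hC⟩ := khat_bdd hh
  refine ⟨∑ i, |z i| * C, fun X => ?_⟩
  unfold qhat
  refine (Finset.abs_sum_le_sum_abs _ _).trans (Finset.sum_le_sum fun i _ => ?_)
  rw [abs_mul]
  exact mul_le_mul_of_nonneg_left (hC _) (abs_nonneg _)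

theorem cen_qhat {h : ℝ} (hh : 0 < h) (z : Fin k → ℝ) (Q : Fin k → E3) :
    Cen z (fun i => emb (Q i)) (qhat h z Q) (fun i X => a0 h (X - emb (Q i))) := by
  intro X
  have : ∀ i ∈ Finset.univ, HasFDerivAt (𝕜 := ℝ) (fun X : W => z i * khat h (X - emb (Q i)))
      (z i • (innerSL ℝ (-(a0 h (X - emb (Q i))) • (X - emb (Q i))) : W →L[ℝ] ℝ)) X := by
    intro i _
    have h1 := (hasFDerivAt_khat hh (X - emb (Q i))).comp X
      ((hasFDerivAt_id (𝕜 := ℝ) X).sub_const (emb (Q i)))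
    have h2 := h1.const_mul (z i)
    refine h2.congr_fderiv ?_
    congr 1
  have h3 := HasFDerivAt.fun_sum this
  refine h3.congr_fderiv ?_
  ext w
  rw [sum_apply, innerSL_apply_apply, inner_neg_left, sum_inner,
    ← Finset.sum_neg_distrib]
  refine Finset.sum_congr rfl fun i _ => ?_
  rw [smul_apply, innerSL_apply_apply, inner_smul_left, inner_smul_left, conj_trivial,
    conj_trivial, smul_eq_mul]
  ring

end Pool.Agent.H29.TF
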