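import Pool.Agent.H29.TF.Central

/-!
# Slice lemma: the modified heat step in dimension 5 restricts to the heat step in dimension 3
-/

open MeasureTheory Real Set Topology

namespace Pool.Agent.H29.TF

theorem hk_complex (t : ℝ) (y : ℂ) : hk t y = (4 * π * t)⁻¹ * Real.exp (-‖y‖ ^ 2 / (4 * t)) := by
  unfold hk
  rw [Complex.finrank_real_complex]
  have : (-((2 : ℕ) : ℝ) / 2) = -1 := by norm_num
  rw [this, Real.rpow_neg_one]

theorem polar_lemma {t : ℝ} (ht : 0 < t) (F φ : ℂ → ℝ) (hF : Continuous F) (hφ : Continuous φ)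
    {C D : ℝ} (hC : ∀ y, |F y| ≤ C) (hD : ∀ y, |φ y| ≤ D)
    (hd : ∀ θ r : ℝ, HasDerivAt (fun r : ℝ => F (r * (Real.cos θ + Real.sin θ * Complex.I)))
      (-r * φ (r * (Real.cos θ + Real.sin θ * Complex.I))) r) :
    ∫ y : ℂ, hk t y * (F y + 2 * t * φ y) = F 0 := by
  rw [← Complex.integral_comp_polarCoord_symm]
  have htar : polarCoord.target = Set.Ioi (0 : ℝ) ×ˢ Set.Ioo (-π) π := rfl
  rw [htar]
  have hnorm : ∀ r θ : ℝ, ‖(r : ℂ) * (Real.cos θ + Real.sin θ * Complex.I)‖ = |r| := by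
    intro r θ
    have := Complex.norm_polarCoord_symm (r, θ)
    rwa [Complex.polarCoord_symm_apply] at this
  set G : ℝ → ℝ → ℝ := fun r θ => r * (((4 * π * t)⁻¹ * Real.exp (-r ^ 2 / (4 * t))) *
    (F (r * (Real.cos θ + Real.sin θ * Complex.I)) +
      2 * t * φ (r * (Real.cos θ + Real.sin θ * Complex.I)))) with hG
  have e1 : ∀ p : ℝ × ℝ, p.1 • (hk t (Complex.polarCoord.symm p) *
      (F (Complex.polarCoord.symm p) + 2 * t * φ (Complex.polarCoord.symm p))) = G p.1 p.2 := by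
    intro p
    rw [Complex.polarCoord_symm_apply, hk_complex, hnorm, sq_abs, smul_eq_mul]
  simp_rw [e1]
  have hGc : Continuous (fun p : ℝ × ℝ => G p.1 p.2) := by
    simp only [hG]
    fun_prop
  have hint0 : Integrable (fun r : ℝ => r * Real.exp (-(1 / (4 * t)) * r ^ 2)) :=
    integrable_mul_exp_neg_mul_sq (by positivity)
  have hbd : ∀ r θ : ℝ, ‖G r θ‖ ≤ ((4 * π * t)⁻¹ * (C + 2 * t * D)) *
      ‖r * Real.exp (-(1 / (4 * t)) * r ^ 2)‖ := by
    intro r θ
    simp only [hG]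
    rw [norm_mul, norm_mul, norm_mul, norm_mul]
    have e2 : -r ^ 2 / (4 * t) = -(1 / (4 * t)) * r ^ 2 := by ring
    rw [e2, Real.norm_of_nonneg (by positivity : 0 ≤ (4 * π * t)⁻¹)]
    have e3 : ‖F (r * (Real.cos θ + Real.sin θ * Complex.I)) +
      2 * t * φ (r * (Real.cos θ + Real.sin θ * Complex.I))‖ ≤ C + 2 * t * D := by
      refine (norm_add_le _ _).trans (add_le_add (hC _) ?_)
      rw [norm_mul, Real.norm_of_nonneg (by positivity : 0 ≤ 2 * t)]
      exact mul_le_mul_of_nonneg_left (hD _) (by positivity)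
    calc ‖r‖ * ((4 * π * t)⁻¹ * ‖Real.exp (-(1 / (4 * t)) * r ^ 2)‖ *
          ‖F (r * (Real.cos θ + Real.sin θ * Complex.I)) +
          2 * t * φ (r * (Real.cos θ + Real.sin θ * Complex.I))‖)
        ≤ ‖r‖ * ((4 * π * t)⁻¹ * ‖Real.exp (-(1 / (4 * t)) * r ^ 2)‖ * (C + 2 * t * D)) := by
          gcongr
      _ = _ := by ring
  have hGint : IntegrableOn (fun p : ℝ × ℝ => G p.1 p.2) (Ioi 0 ×ˢ Ioo (-π) π)
      (volume.prod volume) := by
    unfold IntegrableOn
    rw [← Measure.prod_restrict]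
    have h1 : Integrable (fun p : ℝ × ℝ => (((4 * π * t)⁻¹ * (C + 2 * t * D)) *
      ‖p.1 * Real.exp (-(1 / (4 * t)) * p.1 ^ 2)‖) * (1 : ℝ))
        ((volume.restrict (Ioi 0)).prod (volume.restrict (Ioo (-π) π))) := by
      apply Integrable.mul_prod (f := fun r : ℝ => ((4 * π * t)⁻¹ * (C + 2 * t * D)) *
        ‖r * Real.exp (-(1 / (4 * t)) * r ^ 2)‖) (g := fun _ : ℝ => (1 : ℝ))
      · exact (hint0.norm.const_mul _).restrict
      · exact integrable_const _
    refine Integrable.mono' h1 hGc.aestronglyMeasurable (Filter.Eventually.of_forall fun p => ?_)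
    rw [mul_one]
    exact hbd _ _
  have hvol : (volume : Measure (ℝ × ℝ)) = (volume : Measure ℝ).prod volume := rfl
  rw [hvol, ← Measure.prod_restrict, integral_prod_symm _ (by
    rw [Measure.prod_restrict]; exact hGint)]
  have hinner : ∀ θ : ℝ, ∫ r in Ioi (0 : ℝ), G r θ = (2 * π)⁻¹ * F 0 := by
    intro θ
    set A : ℝ → ℝ := fun r => -((2 * π)⁻¹) * (Real.exp (-(1 / (4 * t)) * r ^ 2) *
      F (r * (Real.cos θ + Real.sin θ * Complex.I))) with hA
    have hder : ∀ r : ℝ, HasDerivAt A (G r θ) r := by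
      intro r
      have h1 : HasDerivAt (fun r : ℝ => Real.exp (-(1 / (4 * t)) * r ^ 2))
          (Real.exp (-(1 / (4 * t)) * r ^ 2) * (-(1 / (4 * t)) * (2 * r))) r := by
        have := ((hasDerivAt_pow 2 r).const_mul (-(1 / (4 * t)))).exp
        simpa using this
      have h2 := (h1.mul (hd θ r)).const_mul (-((2 * π)⁻¹))
      refine h2.congr_deriv ?_
      simp only [hG]
      have e2 : -r ^ 2 / (4 * t) = -(1 / (4 * t)) * r ^ 2 := by ring
      rw [e2]
      field_simp
      ring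
    have hlim : Filter.Tendsto A Filter.atTop (𝓝 0) := by
      have h1 : Filter.Tendsto (fun r : ℝ => Real.exp (-(1 / (4 * t)) * r ^ 2)) Filter.atTop (𝓝 0) := by
        apply Real.tendsto_exp_atBot.comp
        apply Filter.Tendsto.const_mul_atTop_of_neg (by
          have : 0 < 1 / (4 * t) := by positivity
          linarith)
        exact Filter.tendsto_pow_atTop (by norm_num)
      have h2 : Filter.Tendsto (fun r : ℝ => Real.exp (-(1 / (4 * t)) * r ^ 2) *
          F (r * (Real.cos θ + Real.sin θ * Complex.I))) Filter.atTop (𝓝 0) := by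
        refine squeeze_zero_norm (a := fun r : ℝ => Real.exp (-(1 / (4 * t)) * r ^ 2) * C) ?_ ?_
        · intro r
          rw [norm_mul, Real.norm_of_nonneg (Real.exp_pos _).le]
          exact mul_le_mul_of_nonneg_left (hC _) (Real.exp_pos _).le
        · simpa using h1.mul_const C
      have h3 := h2.const_mul (-((2 * π)⁻¹))
      rw [mul_zero] at h3
      exact h3
    have hGi : IntegrableOn (fun r => G r θ) (Ioi 0) := by
      refine Integrable.mono' ((hint0.norm.const_mul ((4 * π * t)⁻¹ * (C + 2 * t * D))).restrict) ?_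
        (Filter.Eventually.of_forall fun r => hbd r θ)
      exact (hGc.comp (continuous_id.prodMk continuous_const)).aestronglyMeasurable
    rw [integral_Ioi_of_hasDerivAt_of_tendsto' (fun r _ => hder r) hGi hlim]
    simp only [hA]
    simp
  simp_rw [hinner]
  rw [integral_const]
  simp only [MeasurableSet.univ, measureReal_restrict_apply, univ_inter, smul_eq_mul]
  rw [Real.volume_real_Ioo_of_le (by linarith [Real.pi_pos])]
  field_simp
  ring

/-- the 5-dimensional space -/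
abbrev W := WithLp 2 (E3 × ℂ)

/-- the embedding of `E3` -/
noncomputable def emb (x : E3) : W := WithLp.toLp 2 (x, (0 : ℂ))

theorem finrank_W : Module.finrank ℝ W = 5 := by
  have e : Module.finrank ℝ W = Module.finrank ℝ (E3 × ℂ) :=
    LinearEquiv.finrank_eq (WithLp.linearEquiv 2 ℝ (E3 × ℂ))
  rw [e, Module.finrank_prod, Complex.finrank_real_complex, finrank_euclideanSpace]
  rfl

theorem finrank_E3 : Module.finrank ℝ E3 = 3 := by
  rw [finrank_euclideanSpace]; rfl

theorem norm_sq_W (x : E3) (y : ℂ) : ‖(WithLp.toLp 2 (x, y) : W)‖ ^ 2 = ‖x‖ ^ 2 + ‖y‖ ^ 2 := by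
  rw [WithLp.prod_norm_sq_eq_of_L2]; rfl

theorem hk_W {t : ℝ} (ht : 0 < t) (x : E3) (y : ℂ) :
    hk t (WithLp.toLp 2 (x, y) : W) = hk t x * hk t y := by
  unfold hk
  rw [finrank_W, finrank_E3, Complex.finrank_real_complex, norm_sq_W]
  have e1 : Real.exp (-(‖x‖ ^ 2 + ‖y‖ ^ 2) / (4 * t)) =
      Real.exp (-‖x‖ ^ 2 / (4 * t)) * Real.exp (-‖y‖ ^ 2 / (4 * t)) := by
    rw [← Real.exp_add]; congr 1; ring
  have e2 : (4 * π * t) ^ (-((5 : ℕ) : ℝ) / 2) =
      (4 * π * t) ^ (-((3 : ℕ) : ℝ) / 2) * (4 * π * t) ^ (-((2 : ℕ) : ℝ) / 2) := by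
    rw [← Real.rpow_add (by positivity)]; congr 1; norm_num
  rw [e1, e2]
  ring

theorem integral_W (G : W → ℝ) : ∫ Y, G Y = ∫ p : E3 × ℂ, G (WithLp.toLp 2 p) := by
  have h := WithLp.volume_preserving_toLp (U := E3) (V := ℂ)
  rw [← h.integral_comp (MeasurableEquiv.toLp 2 (E3 × ℂ)).measurableEmbedding]

theorem integrable_W {G : W → ℝ} (hG : Integrable G) :
    Integrable (fun p : E3 × ℂ => G (WithLp.toLp 2 p)) := by
  have h := WithLp.volume_preserving_toLp (U := E3) (V := ℂ)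
  exact (h.integrable_comp_emb (MeasurableEquiv.toLp 2 (E3 × ℂ)).measurableEmbedding).2 hG

variable {k : ℕ}

theorem inner_W (x x' : E3) (y y' : ℂ) :
    inner ℝ (WithLp.toLp 2 (x, y) : W) (WithLp.toLp 2 (x', y') : W) =
      inner ℝ x x' + inner ℝ y y' := by
  rw [WithLp.prod_inner_apply]

/-- derivative of a centrally decomposed function along a ray in the `ℂ` direction -/
theorem Cen.ray {z : Fin k → ℝ} {Q : Fin k → E3} {f : W → ℝ} {α : Fin k → W → ℝ}
    (h : Cen z (fun i => emb (Q i)) f α) (x : E3) (v : ℂ) (r : ℝ) :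
    HasDerivAt (fun r : ℝ => f (WithLp.toLp 2 (x, (r : ℂ) * v)))
      (-(r * ‖v‖ ^ 2) * ∑ i, z i * α i (WithLp.toLp 2 (x, (r : ℂ) * v))) r := by
  have hc : HasDerivAt (fun r : ℝ => (WithLp.toLp 2 (x, (r : ℂ) * v) : W))
      (WithLp.toLp 2 ((0 : E3), v)) r := by
    have h1 : HasDerivAt (fun r : ℝ => ((x, (r : ℂ) * v) : E3 × ℂ)) ((0 : E3), v) r := by
      refine (hasDerivAt_const r x).prodMk ?_
      have := (Complex.ofRealCLM.hasDerivAt (x := r)).mul_const v
      simpa using this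
    exact ((WithLp.prodContinuousLinearEquiv 2 ℝ E3 ℂ).symm.toContinuousLinearMap.hasFDerivAt.comp_hasDerivAt r h1)
  have h2 := (h (WithLp.toLp 2 (x, (r : ℂ) * v))).comp_hasDerivAt r hc
  refine h2.congr_deriv ?_
  rw [innerSL_apply_apply, inner_neg_left, sum_inner, neg_mul, Finset.mul_sum]
  congr 1
  refine Finset.sum_congr rfl fun i _ => ?_
  have e : (WithLp.toLp 2 (x, (r : ℂ) * v) : W) - emb (Q i) = WithLp.toLp 2 (x - Q i, (r : ℂ) * v) := by
    unfold emb
    rw [← WithLp.toLp_sub, Prod.mk_sub_mk, sub_zero]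
  rw [inner_smul_left, conj_trivial, e, inner_W, inner_zero_right, zero_add]
  have e2 : inner ℝ ((r : ℂ) * v) v = r * ‖v‖ ^ 2 := by
    have : (r : ℂ) * v = r • v := (Complex.real_smul).symm
    rw [this, inner_smul_left, real_inner_self_eq_norm_sq, conj_trivial]
  rw [e2]
  ring

theorem slice {z : Fin k → ℝ} {Q : Fin k → E3} {f : W → ℝ} {α : Fin k → W → ℝ}
    (h : Cen z (fun i => emb (Q i)) f α) (hf : ∃ C, ∀ x, |f x| ≤ C) (hα : ∀ i, Nice (α i))
    {t : ℝ} (ht : 0 < t) (x : E3) :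
    P t (fun Y => f Y + 2 * t * ∑ i, z i * α i Y) (emb x) = P t (fun x' => f (emb x')) x := by
  obtain ⟨C, hC⟩ := hf
  have hφ : Nice (fun y => ∑ i, z i * α i y) := Nice.sum _ fun i _ => (hα i).const_mul _
  obtain ⟨B, hB⟩ := hφ.abs_le
  have hfc := h.cont
  have hφc := hφ.cont
  have hgC : ∀ Y, |f Y + 2 * t * ∑ i, z i * α i Y| ≤ C + 2 * t * B := by
    intro Y
    refine (abs_add_le _ _).trans (add_le_add (hC _) ?_)
    rw [abs_mul, abs_of_nonneg (by positivity : 0 ≤ 2 * t)]
    exact mul_le_mul_of_nonneg_left (hB _) (by positivity)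
  have hgm : AEStronglyMeasurable (fun Y => f Y + 2 * t * ∑ i, z i * α i Y) volume :=
    (hfc.add (continuous_const.mul hφc)).aestronglyMeasurable
  have hint := integrable_W (integrable_hk_mul ht hgm hgC (emb x))
  have hvol : (volume : Measure (E3 × ℂ)) = (volume : Measure E3).prod volume := rfl
  unfold P
  rw [integral_W, hvol, integral_prod _ (by rw [← hvol]; exact hint)]
  congr 1
  ext x'
  have e1 : ∀ y : ℂ, hk t (emb x - WithLp.toLp 2 (x', y)) = hk t (x - x') * hk t y := by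
    intro y
    unfold emb
    rw [← WithLp.toLp_sub, Prod.mk_sub_mk, zero_sub, hk_W ht, hk_neg]
  have e1' : ∀ y : ℂ, hk t (emb x - WithLp.toLp 2 (x', y)) * (f (WithLp.toLp 2 (x', y)) +
      2 * t * ∑ i, z i * α i (WithLp.toLp 2 (x', y))) = hk t (x - x') * (hk t y *
      (f (WithLp.toLp 2 (x', y)) + 2 * t * ∑ i, z i * α i (WithLp.toLp 2 (x', y)))) := by
    intro y
    rw [e1, mul_assoc]
  simp_rw [e1']
  rw [integral_const_mul]
  congr 1
  have htl : Continuous (fun y : ℂ => (WithLp.toLp 2 (x', y) : W)) :=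
    (WithLp.prodContinuousLinearEquiv 2 ℝ E3 ℂ).symm.continuous.comp (by fun_prop)
  exact polar_lemma ht (fun y => f (WithLp.toLp 2 (x', y)))
    (fun y => ∑ i, z i * α i (WithLp.toLp 2 (x', y))) (hfc.comp htl) (hφc.comp htl)
    (fun y => hC _) (fun y => hB _) (fun θ r => by
      have := h.ray x' (Real.cos θ + Real.sin θ * Complex.I) r
      refine this.congr_deriv ?_
      have e3 : ‖((Real.cos θ : ℂ) + Real.sin θ * Complex.I)‖ = 1 := by
        have := Complex.norm_polarCoord_symm (1, θ)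
        rwa [Complex.polarCoord_symm_apply, Complex.ofReal_one, one_mul, abs_one] at this
      rw [e3]
      ring)

end Pool.Agent.H29.TF
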